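import Pool.Agent.K3h16.FG.Sys

/-! Algebra-valued points with given values of all sections, arbitrary codimension. -/

set_option autoImplicit false

namespace Pool.Agent.K3h16.FG

open MvPolynomial Pool.Agent.R920.WC Pool.Agent.H61.Fu Pool.Agent.K3h16.FU Pool.Agent.H39R2.Fuj

variable {N c : ℕ} {B : Type} [CommRing B] [Algebra ℂ B]
  {a : Fin N → ℕ} {d : Fin c → ℕ} {e : ℕ} {f : Fin c → MvPolynomial (Fin N) ℂ}
  {J : Fin N → Fin c} {L : Fin N → ℕ} {v : Fin N → ℂ} {y : Fin N → B}

/-- linear coordinates -/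
theorem finishH (S : SysH a d e f J L) (H : RelG a e f v y) (T : B)
    (h : ∀ l, NL a L l → y l = T ^ a l * algebraMap ℂ B (v l)) :
    ∀ l, y l = T ^ a l * algebraMap ℂ B (v l) := by
  have key : ∀ n, ∀ l, a l = n → y l = T ^ a l * algebraMap ℂ B (v l) := by
    intro n
    induction n using Nat.strong_induction_on with
    | _ n ih =>
      intro l hl
      by_cases hNL : NL a L l
      · exact h l hNL
      unfold NL at hNL
      push Not at hNL
      obtain ⟨h1, h5⟩ := hNL
      obtain ⟨h3, h4⟩ := S.hJ l h1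
      have h2 : d (J l) = a l := by rw [← h3, h5, one_mul]
      rw [h5] at h3 h4
      have h6 := comp (f (J l)) v y (H.hfv _) (H.hfy _) _ h4 (T ^ a l) (by
        intro m hm hne
        have hw := S.hf (J l) (mem_support_iff.1 hm)
        have hml : m l < 1 := lt_of_ne_single S.ha hw h3 hne
        rw [Pool.Agent.R920.WC.weight_eq, h2] at hw
        have h7 : ∀ i, m i ≠ 0 → a i < a l := by
          intro i hi
          have hle : m i * a i ≤ a l := by
            rw [← hw]
            exact Finset.single_le_sum (f := fun x => m x * a x)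
              (fun x _ => Nat.zero_le _) (Finset.mem_univ i)
          have h8 : 1 * a i ≤ m i * a i := Nat.mul_le_mul_right _ (Nat.one_le_iff_ne_zero.2 hi)
          rcases Nat.lt_or_ge (a i) (a l) with h9 | h9
          · exact h9
          · exfalso
            have h10 : a i = a l := by omega
            have h11 : i ≠ l := by
              rintro rfl
              omega
            have h12 := S.hcop i l h11
            rw [h10] at h12
            have := Nat.coprime_self (a l) |>.1 h12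
            omega
        have h8 : T ^ a l = ∏ i, (T ^ a i) ^ m i := by
          rw [← hw, ← Finset.prod_pow_eq_pow_sum]
          exact Finset.prod_congr rfl fun i _ => by rw [← pow_mul, mul_comm]
        rw [h8, ← Finset.prod_mul_distrib]
        refine Finset.prod_congr rfl fun i _ => ?_
        by_cases hi : m i = 0
        · rw [hi, pow_zero, pow_zero, pow_zero, mul_one]
        · rw [ih (a i) (hl ▸ h7 i hi) i rfl, mul_pow])
      rw [prod_single, prod_single, pow_one, pow_one] at h6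
      exact h6
  exact fun l => key (a l) l rfl

theorem vunit (C : Finset (Fin N)) (hv : ∀ i ∈ C, v i ≠ 0) (m : Fin N → ℕ) :
    IsUnit (∏ k ∈ C, (algebraMap ℂ B (v k)) ^ m k) := by
  rw [IsUnit.prod_iff]
  exact fun k hk => (unitV (hv k hk)).pow _

/-- a coordinate of a monomial which does not vanish at `v` is a unit -/
theorem unit_of (H : RelG a e f v y) (C : Finset (Fin N)) (hv : ∀ i ∈ C, v i ≠ 0) {i : Fin N}
    (hi : v i ≠ 0) (m : Fin N → ℕ) (hm : dg a C m + a i = e) : IsUnit (y i) := by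
  have h1 := H.mono_add C m i hm
  have h2 : IsUnit ((∏ k ∈ C, (algebraMap ℂ B (v k)) ^ m k) * algebraMap ℂ B (v i)) :=
    (vunit C hv m).mul (unitV hi)
  rw [← h1] at h2
  exact isUnit_of_mul_isUnit_right h2

/-- a coordinate vanishing at `v` vanishes at `y` -/
theorem zero_of (H : RelG a e f v y) (C : Finset (Fin N)) (hy : ∀ i ∈ C, IsUnit (y i)) {l : Fin N}
    (hl : v l = 0) (m : Fin N → ℕ) (hm : dg a C m + a l = e) : y l = 0 := by
  have h1 := H.mono_add C m l hm
  rw [hl, map_zero, mul_zero] at h1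
  have h2 : IsUnit (∏ k ∈ C, y k ^ m k) := by
    rw [IsUnit.prod_iff]
    exact fun k hk => (hy k hk).pow _
  exact h2.mul_right_eq_zero.1 h1

/-- the values of the ratios -/
theorem rat_on (H : RelG a e f v y) (C : Finset (Fin N)) (hv : ∀ i ∈ C, v i ≠ 0) (r : Fin N → Bˣ)
    (hr : ∀ i ∈ C, y i = r i * algebraMap ℂ B (v i)) (m : Fin N → ℕ) (hm : dg a C m = e) :
    ∏ k ∈ C, r k ^ m k = 1 := by
  have h1 := H.mono_on C m hm
  have h2 : ∏ k ∈ C, y k ^ m k =
      ((∏ k ∈ C, r k ^ m k : Bˣ) : B) * ∏ k ∈ C, (algebraMap ℂ B (v k)) ^ m k := by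
    push_cast
    rw [← Finset.prod_mul_distrib]
    exact Finset.prod_congr rfl fun k hk => by rw [hr k hk, mul_pow]
  rw [h2] at h1
  exact Units.ext ((vunit C hv m).mul_right_cancel (h1.trans (one_mul _).symm))

/-- the coordinates on `C` determine the others -/
theorem fin_on (S : SysH a d e f J L) (H : RelG a e f v y) (C : Finset (Fin N))
    (hv : ∀ i ∈ C, v i ≠ 0) (T : Bˣ)
    (hT : ∀ l ∈ C, y l = (T : B) ^ a l * algebraMap ℂ B (v l))
    (he : ∃ m, dg a C m = e) (hoth : ∀ l, l ∉ C → NL a L l → ∃ m, dg a C m + a l = e) :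
    ∀ l, y l = (T : B) ^ a l * algebraMap ℂ B (v l) := by
  have hTm : ∀ m : Fin N → ℕ, ∏ k ∈ C, (T ^ a k) ^ m k = T ^ dg a C m := by
    intro m
    rw [dg, ← Finset.prod_pow_eq_pow_sum]
    exact Finset.prod_congr rfl fun k hk => by rw [← pow_mul, mul_comm]
  have hTe : T ^ e = 1 := by
    obtain ⟨m, hm⟩ := he
    have h1 := rat_on H C hv (fun k => T ^ a k) (fun i hi => by rw [hT i hi]; push_cast; rfl) m hm
    rw [hTm, hm] at h1
    exact h1
  refine finishH S H T fun l hlin => ?_
  by_cases hl : l ∈ C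
  · exact hT l hl
  obtain ⟨m, hm⟩ := hoth l hl hlin
  have h1 := H.mono_add C m l hm
  have h2 : ∏ k ∈ C, y k ^ m k =
      ((T ^ dg a C m : Bˣ) : B) * ∏ k ∈ C, (algebraMap ℂ B (v k)) ^ m k := by
    rw [← hTm m]
    push_cast
    rw [← Finset.prod_mul_distrib]
    exact Finset.prod_congr rfl fun k hk => by rw [hT k hk, mul_pow]
  rw [h2] at h1
  have h3 : (∏ k ∈ C, (algebraMap ℂ B (v k)) ^ m k) * (((T ^ dg a C m : Bˣ) : B) * y l) =
      (∏ k ∈ C, (algebraMap ℂ B (v k)) ^ m k) * algebraMap ℂ B (v l) := by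
    rw [← h1]; ring
  have h4 := (vunit C hv m).mul_left_cancel h3
  rw [← h4, ← mul_assoc]
  have h5 : (T : B) ^ a l * ((T ^ dg a C m : Bˣ) : B) = 1 := by
    rw [← Units.val_pow_eq_pow_val, ← Units.val_mul, ← pow_add, add_comm (a l), hm, hTe,
      Units.val_one]
  rw [h5, one_mul]

theorem rep2 {a : Fin N → ℕ} {i k : Fin N} (hik : i ≠ k) (hcop : Nat.Coprime (a i) (a k))
    {b e : ℕ} (h : b + (a i - 1) * (a k - 1) ≤ e) : ∃ m, dg a {i, k} m + b = e := by
  obtain ⟨p, q, hpq⟩ := rep hcop (t := e - b) (by omega)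
  refine ⟨fun x => if x = i then p else q, ?_⟩
  rw [dg, Finset.sum_pair hik]
  simp only [if_true, hik.symm, if_false]
  have : p * a i + q * a k = a i * p + a k * q := by ring
  omega

/-- two coordinates determine the others -/
theorem pairH (S : SysH a d e f J L) (H : RelG a e f v y) {i k : Fin N} (hik : i ≠ k)
    (hi : v i ≠ 0) (hk : v k ≠ 0) {X Y : Bˣ} (hX : y i = X * algebraMap ℂ B (v i))
    (hY : y k = Y * algebraMap ℂ B (v k)) (hXY : X ^ a k = Y ^ a i)
    (he : (a i - 1) * (a k - 1) ≤ e)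
    (hoth : ∀ l, l ≠ i → l ≠ k → NL a L l → a l + (a i - 1) * (a k - 1) ≤ e) :
    ∃ T : Bˣ, ∀ l, y l = (T : B) ^ a l * algebraMap ℂ B (v l) := by
  obtain ⟨T, hTX, hTY⟩ := root (S.hcop i k hik) hXY
  refine ⟨T, fin_on S H {i, k} ?_ T ?_ ?_ ?_⟩
  · intro x hx
    rcases Finset.mem_insert.1 hx with h | h
    · rw [h]; exact hi
    · rw [Finset.mem_singleton.1 h]; exact hk
  · intro x hx
    rcases Finset.mem_insert.1 hx with h | h
    · rw [h, hX, hTX]; push_cast; rfl
    · rw [Finset.mem_singleton.1 h, hY, hTY]; push_cast; rfl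
  · exact rep2 (b := 0) hik (S.hcop i k hik) (by omega)
  · intro l hl hlin
    rw [Finset.mem_insert, Finset.mem_singleton, not_or] at hl
    exact rep2 hik (S.hcop i k hik) (hoth l hl.1 hl.2 hlin)

/-- a relation from the sections -/
theorem rel_of_rep (H : RelG a e f v y) (I : Finset (Fin N)) (hv : ∀ x ∈ I, v x ≠ 0)
    {i k : Fin N} (hi : i ∈ I) (hk : k ∈ I) {X Y : Bˣ}
    (hX : y i = X * algebraMap ℂ B (v i)) (hY : y k = Y * algebraMap ℂ B (v k)) (n : Fin N → ℕ)
    (hn : dg a I n + a i * a k = e) : X ^ a k = Y ^ a i := by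
  have h1 := H.mono_on I (fun x => n x + if x = i then a k else 0) (by
    show dg a I _ = e
    rw [dg_add_single a I n hi, mul_comm, hn])
  have h2 := H.mono_on I (fun x => n x + if x = k then a i else 0) (by
    show dg a I _ = e
    rw [dg_add_single a I n hk, hn])
  rw [prod_add_single I _ n hi, prod_add_single I _ n hi, hX, mul_pow, ← mul_assoc] at h1
  rw [prod_add_single I _ n hk, prod_add_single I _ n hk, hY, mul_pow, ← mul_assoc] at h2
  have h3 := ((unitV (B := B) (hv i hi)).pow (a k)).mul_right_cancel h1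
  have h4 := ((unitV (B := B) (hv k hk)).pow (a i)).mul_right_cancel h2
  have h5 : IsUnit (∏ x ∈ I, y x ^ n x) := by
    have h6 := vunit (B := B) I hv n
    rw [← h3] at h6
    exact isUnit_of_mul_isUnit_left h6
  have h6 := h5.mul_left_cancel (h3.trans h4.symm)
  ext
  push_cast
  exact h6

/-- `e` is large -/
theorem roomyH (S : SysH a d e f J L) (H : RelG a e f v y) {i k : Fin N} (hik : i ≠ k)
    (hi : v i ≠ 0) (hk : v k ≠ 0) (hai : 1 < a i) (hak : 1 < a k)
    (he : a i * a k + (a i - 1) * (a k - 1) ≤ e)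
    (hoth : ∀ l, l ≠ i → l ≠ k → NL a L l → a l + (a i - 1) * (a k - 1) ≤ e) :
    ∃ T : Bˣ, ∀ l, y l = (T : B) ^ a l * algebraMap ℂ B (v l) := by
  have hv : ∀ x ∈ ({i, k} : Finset (Fin N)), v x ≠ 0 := by
    intro x hx
    rcases Finset.mem_insert.1 hx with h | h
    · rw [h]; exact hi
    · rw [Finset.mem_singleton.1 h]; exact hk
  have h1 : a i * 1 ≤ a i * a k := Nat.mul_le_mul_left _ (S.ha k)
  have h2 : 1 * a k ≤ a i * a k := Nat.mul_le_mul_right _ (S.ha i)
  obtain ⟨m1, hm1⟩ := rep2 (b := a i) hik (S.hcop i k hik) (e := e) (by omega)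
  obtain ⟨m2, hm2⟩ := rep2 (b := a k) hik (S.hcop i k hik) (e := e) (by omega)
  obtain ⟨X, hX⟩ := exists_ratio hi (unit_of H _ hv hi m1 hm1)
  obtain ⟨Y, hY⟩ := exists_ratio hk (unit_of H _ hv hk m2 hm2)
  obtain ⟨n, hn⟩ := rep2 hik (S.hcop i k hik) (e := e) (b := a i * a k) he
  exact pairH S H hik hi hk hX hY (rel_of_rep H {i, k} hv (by simp) (by simp) hX hY n hn)
    (by omega) hoth

/-- a nonzero coordinate of weight one -/
theorem oneH (S : SysH a d e f J L) (H : RelG a e f v y) {i : Fin N} (hi : v i ≠ 0)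
    (hai : a i = 1) : ∃ T : Bˣ, ∀ l, y l = (T : B) ^ a l * algebraMap ℂ B (v l) := by
  classical
  have hv : ∀ x ∈ ({i} : Finset (Fin N)), v x ≠ 0 := fun x hx => by
    rw [Finset.mem_singleton.1 hx]; exact hi
  have hd1 : ∀ t, dg a {i} (fun _ => t) = t := fun t => by simp [dg, hai]
  have he := S.epos
  obtain ⟨X, hX⟩ := exists_ratio hi (unit_of H {i} hv hi (fun _ => e - 1) (by rw [hd1, hai]; omega))
  refine ⟨X, fin_on S H {i} hv X ?_ ⟨fun _ => e, hd1 e⟩ ?_⟩
  · intro l hl
    rw [Finset.mem_singleton.1 hl, hX, hai, pow_one]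
  · intro l _ hlin
    refine ⟨fun _ => e - a l, ?_⟩
    have h1 := S.X2 hlin
    have h2 := S.X00 (J l)
    rw [hd1]
    omega

end Pool.Agent.K3h16.FG
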