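import Pool.Agent.K3h16.FG.Beta

/-! The values of the sections determine the point, up to one case. -/

set_option autoImplicit false

namespace Pool.Agent.K3h16.FG

open MvPolynomial Pool.Agent.R920.WC Pool.Agent.H61.Fu Pool.Agent.K3h16.FU Pool.Agent.H39R2.Fuj

variable {N c : ℕ} {B : Type} [CommRing B] [Algebra ℂ B]
  {a : Fin N → ℕ} {d : Fin c → ℕ} {e : ℕ} {f : Fin c → MvPolynomial (Fin N) ℂ}
  {J : Fin N → Fin c} {L : Fin N → ℕ} {v : Fin N → ℂ} {y : Fin N → B}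

theorem two_le_card {ι : Type} [DecidableEq ι] {a L : ι → ℕ} {C : Finset ι}
    (h : Closed a L C) : 2 ≤ C.card := by
  obtain ⟨⟨i, hi⟩, h2⟩ := h
  obtain ⟨m, -, k, hk, hki, -⟩ := h2 i hi
  have h3 : ({i, k} : Finset ι) ⊆ C := by
    intro x hx
    rcases Finset.mem_insert.1 hx with h | h
    · rw [h]; exact hi
    · rw [Finset.mem_singleton.1 h]; exact hk
  have h4 := Finset.card_le_card h3
  rwa [Finset.card_pair hki.symm] at h4

/-- the values of the sections of degree `e` determine the point, unless two coordinates of a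
tight pair are not both units -/
theorem core (hA : S_THMA) (hM : S_MEM) (hStar : S_STAR) (hBin : S_BIN) (hGap : S_GAP)
    (hTwo : S_TWO) (hSink : S_SINK) (hMin : S_MIN) (hRank : S_RANK)
    (S : SysH a d e f J L) (H : RelG a e f v y) (hv : v ≠ 0) :
    (∃ T : Bˣ, ∀ l, y l = (T : B) ^ a l * algebraMap ℂ B (v l)) ∨
    ∃ i k, i ≠ k ∧ v i ≠ 0 ∧ v k ≠ 0 ∧ 1 < a i ∧ 1 < a k ∧ J i = J k ∧
      d (J i) = a i * a k ∧ (∀ l, 1 < a l → J l = J i → l = i ∨ l = k) ∧
      ¬ (IsUnit (y i) ∧ IsUnit (y k)) := by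
  classical
  by_cases hw1 : ∃ i, v i ≠ 0 ∧ a i = 1
  · obtain ⟨i, hi, hai⟩ := hw1
    exact Or.inl (oneH S H hi hai)
  push Not at hw1
  have hone : ∀ i, v i ≠ 0 → 1 < a i := fun i hi => by
    have h1 := hw1 i hi
    have h2 := S.ha i
    omega
  set I := II a L v with hI
  have hvI : ∀ x ∈ I, v x ≠ 0 := fun x hx => (mem_II.1 hx).2
  have h1I : ∀ x ∈ I, 1 < a x := fun x hx => hone x (hvI x hx)
  by_cases hr : ∃ i ∈ I, ∃ k ∈ I, i ≠ k ∧ J i = J k ∧
      2 * (a i * a k) ≤ XG a d J (J i) + a i + a k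
  · left
    obtain ⟨i, hi, k, hk, hik, hJ, hr⟩ := hr
    have hai := h1I i hi
    have hak := h1I k hk
    refine roomyH S H hik (hvI i hi) (hvI k hk) hai hak ?_
      (fun l h1 h2 h3 => S.others hik hai hak hJ l h1 h2 h3)
    have h3 := S.X00 (J i)
    have h4 : (a i - 1) * (a k - 1) + a i + a k = a i * a k + 1 := by
      obtain ⟨p, hp⟩ : ∃ p, a i = p + 1 := ⟨a i - 1, by omega⟩
      obtain ⟨q, hq⟩ : ∃ q, a k = q + 1 := ⟨a k - 1, by omega⟩
      rw [hp, hq]
      simp only [Nat.add_sub_cancel]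
      ring
    omega
  have htight : ∀ i ∈ I, ∀ k ∈ I, i ≠ k → J i = J k →
      d (J i) = a i * a k ∧ ∀ l, 1 < a l → J l = J i → l = i ∨ l = k := by
    intro i hi k hk hik hJ
    rcases (S.X3 hik (h1I i hi) (h1I k hk) hJ).2.2.2 with h | h
    · exact absurd ⟨i, hi, k, hk, hik, hJ, h⟩ hr
    · exact h
  have hT : ∀ x ∈ I, ∀ x' ∈ I, x ≠ x' → J x = J x' → L x = a x' := by
    intro x hx x' hx' hxx hJ
    have h1 := (htight x hx x' hx' hxx hJ).1
    have : L x * a x = a x' * a x := by rw [(S.hJ x (h1I x hx)).1, h1, mul_comm]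
    exact Nat.eq_of_mul_eq_mul_right (S.ha x) this
  have hIcl : Closed a L I :=
    ⟨exists_NL hStar S H hv, fun i hi => exists_rel hStar S H hi (h1I i hi)⟩
  by_cases h3 : ∃ C ⊆ I, Minimal' a L C ∧ 3 ≤ C.card
  · obtain ⟨C, hCI, hC, hcard⟩ := h3
    exact Or.inl (case1 hA hM S H hone hCI hC hcard)
  by_cases hα : ∃ i ∈ I, ∃ k ∈ I, i ≠ k ∧ J i ≠ J k ∧ Closed a L {i, k}
  · obtain ⟨i, hi, k, hk, hik, hJ, hcl⟩ := hα
    exact Or.inl (alpha hStar hBin hGap S H hone hT hi hk hik hJ hcl)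
  have hpairs : ∀ U ⊆ I, Closed a L U → ∃ i ∈ U, ∃ k ∈ U, i ≠ k ∧ J i = J k := by
    intro U hU hUcl
    obtain ⟨C, hCU, hC⟩ := exists_minimal hUcl
    have h4 := two_le_card hC.1
    have h5 : C.card = 2 := by
      by_contra hcon
      exact h3 ⟨C, hCU.trans hU, hC, by omega⟩
    obtain ⟨i, k, hik, rfl⟩ := Finset.card_eq_two.1 h5
    have hi : i ∈ U := hCU (by simp)
    have hk : k ∈ U := hCU (by simp)
    refine ⟨i, hi, k, hk, hik, ?_⟩
    by_contra hJ
    exact hα ⟨i, hU hi, k, hU hk, hik, hJ, hC.1⟩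
  obtain ⟨i, hi, k, hk, hik, hJ⟩ := hpairs I (Finset.Subset.refl _) hIcl
  obtain ⟨hD, hTi⟩ := htight i hi k hk hik hJ
  have hai := h1I i hi
  have hak := h1I k hk
  by_cases hq : ∃ l ∈ I, ∃ m ∈ I, l ≠ m ∧ J l = J m ∧ J l ≠ J i
  · left
    obtain ⟨l, hl, m, hm, hlm, hJlm, hJl⟩ := hq
    obtain ⟨hD', hTl⟩ := htight l hl m hm hlm hJlm
    have hal := h1I l hl
    have ham := h1I m hm
    have hne1 : a i ≠ a k := fun h => by
      have := (S.hcop i k hik).eq_one_of_dvd ⟨1, by rw [h, mul_one]⟩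
      omega
    have hne2 : a l ≠ a m := fun h => by
      have := (S.hcop l m hlm).eq_one_of_dvd ⟨1, by rw [h, mul_one]⟩
      omega
    have hJm : J m ≠ J i := fun h => hJl (hJlm.trans h)
    have hTs : ∀ x, 1 < a x → J x = J k → x = k ∨ x = i := fun x hx hJx =>
      (hTi x hx (hJx.trans hJ.symm)).symm
    have hTs' : ∀ x, 1 < a x → J x = J m → x = m ∨ x = l := fun x hx hJx =>
      (hTl x hx (hJx.trans hJlm.symm)).symm
    rcases Nat.lt_or_gt_of_ne hne1 with h4 | h4 <;> rcases Nat.lt_or_gt_of_ne hne2 with h5 | h5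
    · exact quadH S H hik hlm (hvI i hi) (hvI l hl) hai hak hal ham hJ hJlm (Ne.symm hJl) hTi hTl
        h4 h5
    · exact quadH S H hik hlm.symm (hvI i hi) (hvI m hm) hai hak ham hal hJ hJlm.symm
        (Ne.symm hJm) hTi hTs' h4 h5
    · exact quadH S H hik.symm hlm (hvI k hk) (hvI l hl) hak hai hal ham hJ.symm hJlm
        (fun h => hJl (h.symm.trans hJ.symm)) hTs hTl h4 h5
    · exact quadH S H hik.symm hlm.symm (hvI k hk) (hvI m hm) hak hai ham hal hJ.symm hJlm.symm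
        (fun h => hJm (h.symm.trans hJ.symm)) hTs hTs' h4 h5
  by_cases hU : IsUnit (y i) ∧ IsUnit (y k)
  swap
  · exact Or.inr ⟨i, k, hik, hvI i hi, hvI k hk, hai, hak, hJ, hD, hTi, hU⟩
  left
  refine beta hStar hBin hTwo hSink hMin hRank S H hone hi hk hik hJ hD hU.1 hU.2 hTi ?_ ?_
  · intro l hl m hm hlk hmk hJlm
    by_contra hlm
    by_cases hJl : J l = J i
    · have h4 := (hTi l (h1I l hl) hJl).resolve_right hlk
      have h5 := (hTi m (h1I m hm) (hJlm.symm.trans hJl)).resolve_right hmk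
      exact hlm (h4.trans h5.symm)
    · exact hq ⟨l, hl, m, hm, hlm, hJlm, hJl⟩
  · intro U hU' hUcl
    obtain ⟨x, hx, z, hz, hxz, hJxz⟩ := hpairs U hU' hUcl
    have hJx : J x = J i := by
      by_contra h
      exact hq ⟨x, hU' hx, z, hU' hz, hxz, hJxz, h⟩
    have h4 := hTi x (h1I x (hU' hx)) hJx
    have h5 := hTi z (h1I z (hU' hz)) (hJxz.symm.trans hJx)
    rcases h4 with h4 | h4 <;> rcases h5 with h5 | h5
    · exact absurd (h4.trans h5.symm) hxz
    · subst h4; subst h5; exact ⟨hx, hz⟩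
    · subst h4; subst h5; exact ⟨hz, hx⟩
    · exact absurd (h4.trans h5.symm) hxz

end Pool.Agent.K3h16.FG
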