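import Pool.Agent.K3h33.FG.Pot
import Pool.Agent.K3h40.FG.RedLin
import Pool.Agent.K3h73.FG.MinClo
import Pool.Agent.K3h76.FG.Axis
import Pool.Agent.K3h7.FG.Dual
import Pool.Agent.K3h85.FG.OneBad
import Pool.Agent.K3h85.FG.ValRank
import Pool.Agent.K3h40.FG.Mem
import Pool.Agent.K3h87.FG.Star
import Pool.Agent.K3h10.FG.Small
import Pool.Agent.K3h92.FG.Sink
import Pool.Agent.K3h40.FG.Thma
import Pool.Agent.K3h16.FG.Core

/-! All statements together. -/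

set_option autoImplicit false

namespace Pool.Agent.K3h16.FG

open MvPolynomial Pool.Agent.R920.WC Pool.Agent.H61.Fu Pool.Agent.K3h16.FU Pool.Agent.H39R2.Fuj

theorem a_POT : S_POT := Pool.Agent.K3h33.FG.t_POT
theorem a_RED : S_RED := Pool.Agent.K3h33.FG.t_RED
theorem a_REDLIN : S_REDLIN := Pool.Agent.K3h40.FG.t_REDLIN
theorem a_MIN : S_MIN := Pool.Agent.K3h73.FG.t_MIN
theorem a_CLO : S_CLO := Pool.Agent.K3h73.FG.t_CLO a_MIN
theorem a_AXIS : S_AXIS := Pool.Agent.K3h76.FG.t_AXIS a_MIN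
theorem a_DUAL : S_DUAL := t_DUAL a_POT a_RED a_MIN
theorem a_ONEBAD : S_ONEBAD := Pool.Agent.K3h85.FG.t_ONEBAD a_POT a_RED a_MIN a_AXIS a_DUAL
theorem a_VAL : S_VAL := Pool.Agent.K3h85.FG.t_VAL a_POT a_RED
theorem a_RANK : S_RANK := Pool.Agent.K3h85.FG.t_RANK
theorem a_MEM : S_MEM := Pool.Agent.K3h40.FG.t_MEM a_MIN a_AXIS a_CLO
theorem a_STAR : S_STAR := Pool.Agent.K3h87.FG.t_STAR
theorem a_BIN : S_BIN := Pool.Agent.K3h10.FG.t_BIN
theorem a_GAP : S_GAP := Pool.Agent.K3h10.FG.t_GAP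
theorem a_TWO : S_TWO := Pool.Agent.K3h10.FG.t_TWO
theorem a_SINK : S_SINK := Pool.Agent.K3h92.FG.t_SINK a_POT a_REDLIN a_MIN a_AXIS
theorem a_THMA : S_THMA :=
  Pool.Agent.K3h40.FG.t_THMA a_MIN a_AXIS a_CLO a_ONEBAD a_VAL a_RANK

variable {N c : ℕ} {B : Type} [CommRing B] [Algebra ℂ B]
  {a : Fin N → ℕ} {d : Fin c → ℕ} {e : ℕ} {f : Fin c → MvPolynomial (Fin N) ℂ}
  {J : Fin N → Fin c} {L : Fin N → ℕ} {v : Fin N → ℂ} {y : Fin N → B}

/-- the values of the sections of degree `e` determine the point, unless two coordinates of a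
tight pair are not both units -/
theorem core' (S : SysH a d e f J L) (H : RelG a e f v y) (hv : v ≠ 0) :
    (∃ T : Bˣ, ∀ l, y l = (T : B) ^ a l * algebraMap ℂ B (v l)) ∨
    ∃ i k, i ≠ k ∧ v i ≠ 0 ∧ v k ≠ 0 ∧ 1 < a i ∧ 1 < a k ∧ J i = J k ∧
      d (J i) = a i * a k ∧ (∀ l, 1 < a l → J l = J i → l = i ∨ l = k) ∧
      ¬ (IsUnit (y i) ∧ IsUnit (y k)) :=
  core a_THMA a_MEM a_STAR a_BIN a_GAP a_TWO a_SINK a_MIN a_RANK S H hv

end Pool.Agent.K3h16.FG
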