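import Pool.Agent.K3h16.FG.Cases

/-! A single tight pair. -/

set_option autoImplicit false

namespace Pool.Agent.K3h16.FG

open MvPolynomial Pool.Agent.R920.WC Pool.Agent.H61.Fu Pool.Agent.K3h16.FU Pool.Agent.H39R2.Fuj

variable {N c : ℕ} {B : Type} [CommRing B] [Algebra ℂ B]
  {a : Fin N → ℕ} {d : Fin c → ℕ} {e : ℕ} {f : Fin c → MvPolynomial (Fin N) ℂ}
  {J : Fin N → Fin c} {L : Fin N → ℕ} {v : Fin N → ℂ} {y : Fin N → B}

/-- the exponents of the other weights are small -/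
theorem Lbound {ι : Type} [DecidableEq ι] {a L : ι → ℕ} {i k l : ι} (hli : l ≠ i)
    (hai : 1 < a i) (hal : 1 < a l) (hcop : Nat.Coprime (a k) (a l))
    (hLi : L i = a k) (hncl : ¬ Closed a L {l, i}) {e : ℕ}
    (he : e < a i * a k + (a i - 1) * (a k - 1))
    (hbud : (a i - 1) * (a k - 1) + (L l - 1) * (a l - 1) + 1 ≤ e) : L l ≤ a i := by
  by_contra hcon
  push Not at hcon
  have hne : a l ≠ a k := fun h => by
    have := hcop.eq_one_of_dvd ⟨1, by rw [h, mul_one]⟩
    omega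
  rcases Nat.lt_or_gt_of_ne hne with h | h
  · apply hncl
    refine closed_mk hli (x := L l - a i) (t := a l) (x' := a k - a l) (t' := a i) (by omega)
      (by omega) ?_ ?_
    · rw [mul_comm (a l) (a i), ← add_mul, Nat.sub_add_cancel hcon.le]
    · rw [mul_comm (a i) (a l), ← add_mul, Nat.sub_add_cancel h.le, hLi]
  · have h1 : a i * a k ≤ (L l - 1) * (a l - 1) := Nat.mul_le_mul (by omega) (by omega)
    omega

/-- one tight pair -/
theorem beta (hStar : S_STAR) (hBin : S_BIN) (hTwo : S_TWO) (hSink : S_SINK) (hMin : S_MIN)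
    (hRank : S_RANK) (S : SysH a d e f J L)
    (H : RelG a e f v y) (hone : ∀ m, v m ≠ 0 → 1 < a m)
    {i k : Fin N} (hi : i ∈ II a L v) (hk : k ∈ II a L v) (hik : i ≠ k) (hJ : J i = J k)
    (hD : d (J i) = a i * a k) (hyi : IsUnit (y i)) (hyk : IsUnit (y k))
    (hT : ∀ l, 1 < a l → J l = J i → l = i ∨ l = k)
    (hinj : ∀ l ∈ II a L v, ∀ m ∈ II a L v, l ≠ k → m ≠ k → J l = J m → l = m)
    (hcl : ∀ U ⊆ II a L v, Closed a L U → i ∈ U ∧ k ∈ U) :
    ∃ T : Bˣ, ∀ l, y l = (T : B) ^ a l * algebraMap ℂ B (v l) := by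
  classical
  set I := II a L v with hI
  have hvI : ∀ x ∈ I, v x ≠ 0 := fun x hx => (mem_II.1 hx).2
  have h1I : ∀ x ∈ I, 1 < a x := fun x hx => hone x (hvI x hx)
  have hvi := hvI i hi
  have hvk := hvI k hk
  have hai := hone i hvi
  have hak := hone k hvk
  have hLi : L i = a k := by
    have : L i * a i = a k * a i := by rw [(S.hJ i hai).1, hD, mul_comm]
    exact Nat.eq_of_mul_eq_mul_right (S.ha i) this
  have hLk : L k = a i := by
    have : L k * a k = a i * a k := by rw [(S.hJ k hak).1, ← hJ, hD]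
    exact Nat.eq_of_mul_eq_mul_right (S.ha k) this
  have hoth := S.others hik hai hak hJ
  have hX3 := (S.X3 hik hai hak hJ).1
  have hX00 := S.X00 (J i)
  by_cases hroom : a i * a k + (a i - 1) * (a k - 1) ≤ e
  · exact roomyH S H hik hvi hvk hai hak hroom (fun l h1 h2 h3 => hoth l h1 h2 h3)
  push Not at hroom
  obtain ⟨X, hX⟩ := exists_ratio hvi hyi
  obtain ⟨Y, hY⟩ := exists_ratio hvk hyk
  have h0 := pair_zero S H hik hvi hvk hyi hyk (fun l h1 h2 h3 => hoth l h1 h2 h3)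
  have hcopI : ∀ x ∈ I, ∀ x' ∈ I, x ≠ x' → Nat.Coprime (a x) (a x') :=
    fun x _ x' _ h => S.hcop x x' h
  refine pairH S H hik hvi hvk hX hY ?_ (by omega) (fun l h1 h2 h3 => hoth l h1 h2 h3)
  by_cases hgap : ∀ l ∈ I, l ≠ i → l ≠ k → ∃ p r : ℕ, p * a i + r * a k = a l
  · exact hBin a L I v y i k hi hk hik h1I hcopI hLk hgap
      (lin_rel hStar S H h0 (mem_II.1 hk).1 hak) hvi hvk X Y hX hY
  push Not at hgap
  obtain ⟨l₀, hl₀, hl₀i, hl₀k, hl₀g⟩ := hgap
  -- the minimal exponents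
  obtain ⟨cc, hcc⟩ := (hMin a I (fun x _ => S.ha x)).1 (fun x hx => by
    by_cases hxi : x = i
    · exact ⟨k, hk, by rw [hxi]; exact hik.symm⟩
    · exact ⟨i, hi, Ne.symm hxi⟩)
  -- the ratios
  have hratio : ∀ x, ∃ X : Bˣ, x ∈ I → y x = X * algebraMap ℂ B (v x) := by
    intro x
    by_cases hx : x ∈ I
    · by_cases hxi : x = i
      · exact ⟨X, fun _ => by rw [hxi]; exact hX⟩
      by_cases hxk : x = k
      · exact ⟨Y, fun _ => by rw [hxk]; exact hY⟩
      obtain ⟨m, hm⟩ := rep2 hik (S.hcop i k hik) (hoth x hxi hxk (mem_II.1 hx).1)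
      obtain ⟨Z, hZ⟩ := exists_ratio (hvI x hx) (unit_of H {i, k} (by
        intro z hz
        rcases Finset.mem_insert.1 hz with h | h
        · rw [h]; exact hvi
        · rw [Finset.mem_singleton.1 h]; exact hvk) (hvI x hx) m hm)
      exact ⟨Z, fun _ => hZ⟩
    · exact ⟨1, fun h => absurd h hx⟩
  choose r hr using hratio
  have hri : r i = X := by
    have h1 := hr i hi
    rw [hX] at h1
    exact (Units.ext ((unitV hvi).mul_right_cancel h1)).symm
  have hrk : r k = Y := by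
    have h1 := hr k hk
    rw [hY] at h1
    exact (Units.ext ((unitV hvk).mul_right_cancel h1)).symm
  -- the budget
  have hmem2 : ∀ x, x ∈ (I.erase i).erase k → x ∈ I ∧ x ≠ i ∧ x ≠ k := fun x hx =>
    ⟨Finset.mem_of_mem_erase (Finset.mem_of_mem_erase hx),
      Finset.ne_of_mem_erase (Finset.mem_of_mem_erase hx), Finset.ne_of_mem_erase hx⟩
  have hJx : ∀ x ∈ (I.erase i).erase k, J x ∉ ({J i} : Finset (Fin c)) := by
    intro x hx h
    obtain ⟨h1, h2, h3⟩ := hmem2 x hx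
    rcases hT x (h1I x h1) (Finset.mem_singleton.1 h) with h4 | h4
    · exact h2 h4
    · exact h3 h4
  have hbud := S.budgetC ((I.erase i).erase k) (fun x hx => h1I x (hmem2 x hx).1)
    (fun x hx x' hx' h => hinj x (hmem2 x hx).1 x' (hmem2 x' hx').1 (hmem2 x hx).2.2
      (hmem2 x' hx').2.2 h) {J i} hJx
  rw [Finset.sum_singleton] at hbud
  have hbud1 : ∀ l ∈ I, l ≠ i → l ≠ k →
      (a i - 1) * (a k - 1) + (L l - 1) * (a l - 1) + 1 ≤ e := by
    intro l hl hli hlk
    have h1 : (L l - 1) * (a l - 1) ≤ ∑ x ∈ (I.erase i).erase k, (L x - 1) * (a x - 1) :=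
      Finset.single_le_sum (f := fun x => (L x - 1) * (a x - 1)) (fun _ _ => Nat.zero_le _)
        (Finset.mem_erase.2 ⟨hlk, Finset.mem_erase.2 ⟨hli, hl⟩⟩)
    omega
  have hcomm : (a k - 1) * (a i - 1) = (a i - 1) * (a k - 1) := mul_comm _ _
  have hcomm' : a k * a i = a i * a k := mul_comm _ _
  have hLl : ∀ l ∈ I, l ≠ i → l ≠ k → L l ≤ a i := by
    intro l hl hli hlk
    refine Lbound hli hai (h1I l hl) (S.hcop k l hlk.symm) hLi ?_ hroom (hbud1 l hl hli hlk)
    intro hc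
    have h1 := (hcl {l, i} (by
      intro x hx
      rcases Finset.mem_insert.1 hx with h | h
      · rw [h]; exact hl
      · rw [Finset.mem_singleton.1 h]; exact hi) hc).2
    rcases Finset.mem_insert.1 h1 with h | h
    · exact hlk h.symm
    · exact hik (Finset.mem_singleton.1 h).symm
  have hLl' : ∀ l ∈ I, l ≠ i → l ≠ k → L l ≤ a k := by
    intro l hl hli hlk
    refine Lbound (i := k) (k := i) hlk hak (h1I l hl) (S.hcop i l hli.symm) hLk ?_
      (by rw [hcomm, hcomm']; exact hroom) (by rw [hcomm]; exact hbud1 l hl hli hlk)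
    intro hc
    have h1 := (hcl {l, k} (by
      intro x hx
      rcases Finset.mem_insert.1 hx with h | h
      · rw [h]; exact hl
      · rw [Finset.mem_singleton.1 h]; exact hk) hc).1
    rcases Finset.mem_insert.1 h1 with h | h
    · exact hli h.symm
    · exact hik (Finset.mem_singleton.1 h)
  have hL2 : ∀ x ∈ I, 2 ≤ L x := fun x hx => S.L2 (h1I x hx) (mem_II.1 hx).1
  have hval1 : ∀ m : Fin N → ℕ, dg a I m = e → ∏ x ∈ I, r x ^ m x = 1 :=
    fun m hm => rat_on H I hvI r hr m hm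
  have hlin : ∀ l ∈ I, ((v l, (r l : B) * algebraMap ℂ B (v l)) : ℂ × B) ^ L l ∈
      Submodule.span ℂ {w : ℂ × B | ∃ m, Rel a L I l m ∧
        w = ∏ x ∈ I, ((v x, (r x : B) * algebraMap ℂ B (v x)) : ℂ × B) ^ m x} := by
    intro l hl
    have h1 := lin_rel hStar S H h0 (mem_II.1 hl).1 (h1I l hl)
    rw [← hr l hl]
    refine Submodule.span_mono ?_ h1
    rintro w ⟨m, hm, rfl⟩
    exact ⟨m, hm, Finset.prod_congr rfl fun x hx => by rw [hr x hx]⟩
  have hce : ∀ l ∈ I, l ≠ i → l ≠ k → (a i - 1) * (a k - 1) + a l ≤ e := by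
    intro l hl hli hlk
    have := hoth l hli hlk (mem_II.1 hl).1
    omega
  obtain ⟨u, w, huw, hor⟩ := hTwo a cc I i k l₀ hi hk hl₀ hik hl₀i hl₀k h1I hcopI hcc hl₀g e
    (hce l₀ hl₀ hl₀i hl₀k)
  have hfin : ∀ T : Bˣ, (∀ l ∈ I, r l = T ^ a l) → X ^ a k = Y ^ a i := by
    intro T hT'
    rw [← hri, ← hrk, hT' i hi, hT' k hk, ← pow_mul, ← pow_mul, mul_comm]
  rcases hor with h | h
  · -- sink k
    have hval := hSink a cc L I v r k i hk hi hik.symm h1I hcopI hcc hL2 hLi
      (fun U hU hc => by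
        have h1 := (hcl U (hU.trans Finset.sdiff_subset) hc).2
        exact (Finset.mem_sdiff.1 (hU h1)).2 (Finset.mem_singleton_self _))
      (fun l hl hlk hli => hLl l hl hli hlk) hvI e (by
        rw [Finset.erase_right_comm, hcomm]
        omega)
      (fun l hl hlk hli => by rw [hcomm]; exact hce l hl hli hlk) hval1
      ⟨w, u, by omega, h⟩ (fun l hl _ _ => hlin l hl)
    obtain ⟨T, hT'⟩ := hRank r a I (fun x _ => S.ha x) k hk i hi (S.hcop i k hik) e hval
    exact hfin T hT'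
  · have hval := hSink a cc L I v r i k hi hk hik h1I hcopI hcc hL2 hLk
      (fun U hU hc => by
        have h1 := (hcl U (hU.trans Finset.sdiff_subset) hc).1
        exact (Finset.mem_sdiff.1 (hU h1)).2 (Finset.mem_singleton_self _))
      hLl' hvI e (by omega) hce hval1
      ⟨u, w, huw, h⟩ (fun l hl _ _ => hlin l hl)
    obtain ⟨T, hT'⟩ := hRank r a I (fun x _ => S.ha x) i hi k hk (S.hcop k i hik.symm) e hval
    exact hfin T hT'

end Pool.Agent.K3h16.FG
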