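import Pool.Agent.K3h16.FG.Elim

/-! The cases: a minimal closed set with three elements, closed pairs. -/

set_option autoImplicit false

namespace Pool.Agent.K3h16.FG

open MvPolynomial Pool.Agent.R920.WC Pool.Agent.H61.Fu Pool.Agent.K3h16.FU Pool.Agent.H39R2.Fuj

variable {N c : ℕ} {B : Type} [CommRing B] [Algebra ℂ B]
  {a : Fin N → ℕ} {d : Fin c → ℕ} {e : ℕ} {f : Fin c → MvPolynomial (Fin N) ℂ}
  {J : Fin N → Fin c} {L : Fin N → ℕ} {v : Fin N → ℂ} {y : Fin N → B}

/-- a relation on a pair -/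
theorem rel_pair {ι : Type} [DecidableEq ι] {a L : ι → ℕ} {i k : ι} (hik : i ≠ k) {x t : ℕ}
    (ht : t ≠ 0) (h : x * a i + t * a k = L i * a i) : ∃ m, Rel a L {i, k} i m := by
  refine ⟨fun z => if z = i then x else t, ?_, k, by simp, hik.symm, ?_⟩
  · rw [Finset.sum_pair hik]
    simp only [if_true, hik.symm, if_false]
    exact h
  · simp only [hik.symm, if_false]
    exact ht

theorem closed_mk {ι : Type} [DecidableEq ι] {a L : ι → ℕ} {i k : ι} (hik : i ≠ k) {x t x' t' : ℕ}
    (ht : t ≠ 0) (ht' : t' ≠ 0) (h : x * a i + t * a k = L i * a i)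
    (h' : x' * a k + t' * a i = L k * a k) : Closed a L {i, k} := by
  refine ⟨⟨i, by simp⟩, fun z hz => ?_⟩
  rcases Finset.mem_insert.1 hz with hz | hz
  · rw [hz]; exact rel_pair hik ht h
  · rw [Finset.mem_singleton.1 hz, Finset.pair_comm]
    exact rel_pair hik.symm ht' h'

/-- two weights for the same equation -/
theorem closed_same (S : SysH a d e f J L) {i k : Fin N} (hik : i ≠ k) (hai : 1 < a i)
    (hak : 1 < a k) (hJ : J i = J k) : Closed a L {i, k} := by
  obtain ⟨w, hw⟩ := (S.X3 hik hai hak hJ).2.1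
  have h1 := (S.hJ i hai).1
  have h2 := (S.hJ k hak).1
  have h3 := S.hd (J i)
  have hw0 : w ≠ 0 := by
    rintro rfl
    rw [mul_zero] at hw
    omega
  refine closed_mk hik (x := 0) (x' := 0) (t := w * a i) (t' := w * a k) ?_ ?_ ?_ ?_
  · exact mul_ne_zero hw0 (by omega)
  · exact mul_ne_zero hw0 (by omega)
  · rw [h1, hw]; ring
  · rw [h2, ← hJ, hw]; ring

/-- a closed pair -/
theorem closed_pair_ge {ι : Type} [DecidableEq ι] {a L : ι → ℕ} {i k : ι} (hik : i ≠ k)
    (hai : 0 < a i) (hcop : Nat.Coprime (a i) (a k)) (h : Closed a L {i, k}) : a k ≤ L i := by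
  obtain ⟨m, hm, x, hx, hxi, hmx⟩ := h.2 i (by simp)
  have hxk : x = k := by
    rcases Finset.mem_insert.1 hx with h | h
    · exact absurd h hxi
    · exact Finset.mem_singleton.1 h
  subst hxk
  rw [Finset.sum_pair hik] at hm
  have h1 : a i ∣ m x * a x := by
    refine (Nat.dvd_add_right (Nat.dvd_mul_left (a i) (m i))).1 ?_
    rw [hm]
    exact Nat.dvd_mul_left _ _
  have h2 : a i ∣ m x := hcop.dvd_of_dvd_mul_right h1
  have h3 := Nat.le_of_dvd (Nat.pos_of_ne_zero hmx) h2
  have h4 : a i * a x ≤ m x * a x := Nat.mul_le_mul_right _ h3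
  by_contra hcon
  push Not at hcon
  have h5 : L i * a i < a x * a i := Nat.mul_lt_mul_of_pos_right hcon hai
  have h6 : a x * a i = a i * a x := mul_comm _ _
  omega

/-- a minimal closed set with at least three elements -/
theorem case1 (hA : S_THMA) (hM : S_MEM) (S : SysH a d e f J L) (H : RelG a e f v y)
    (hone : ∀ m, v m ≠ 0 → 1 < a m) {C : Finset (Fin N)} (hCI : C ⊆ II a L v)
    (hC : Minimal' a L C) (h3 : 3 ≤ C.card) :
    ∃ T : Bˣ, ∀ l, y l = (T : B) ^ a l * algebraMap ℂ B (v l) := by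
  classical
  have hvC : ∀ i ∈ C, v i ≠ 0 := fun i hi => (mem_II.1 (hCI hi)).2
  have h1C : ∀ i ∈ C, 1 < a i := fun i hi => hone i (hvC i hi)
  have hcopC : ∀ i ∈ C, ∀ k ∈ C, i ≠ k → Nat.Coprime (a i) (a k) := fun i _ k _ h => S.hcop i k h
  have hinj : ∀ i ∈ C, ∀ k ∈ C, J i = J k → i = k := by
    intro i hi k hk hJ
    by_contra hik
    have h4 := closed_same S hik (h1C i hi) (h1C k hk) hJ
    have h5 := hC.2 _ (by
      intro x hx
      rcases Finset.mem_insert.1 hx with h | h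
      · rw [h]; exact hi
      · rw [Finset.mem_singleton.1 h]; exact hk) h4
    rw [← h5, Finset.card_pair hik] at h3
    omega
  have hbud := S.budgetC C h1C hinj ∅ (fun i _ => Finset.notMem_empty _)
  rw [Finset.sum_empty, add_zero] at hbud
  obtain ⟨hm1, hm2, hm3⟩ := hM a L C h1C hcopC hC (fun i hi => S.Lpos (h1C i hi)) e hbud
  have hratio : ∀ i, ∃ X : Bˣ, i ∈ C → y i = X * algebraMap ℂ B (v i) := by
    intro i
    by_cases hi : i ∈ C
    · obtain ⟨m, hm⟩ := hm1 i hi
      obtain ⟨X, hX⟩ := exists_ratio (hvC i hi) (unit_of H C hvC (hvC i hi) m hm)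
      exact ⟨X, fun _ => hX⟩
    · exact ⟨1, fun h => absurd h hi⟩
  choose r hr using hratio
  obtain ⟨T, hT⟩ := hA r a L C h1C hcopC hC h3 (fun i hi => S.Lpos (h1C i hi)) e hbud
    (fun m hm => rat_on H C hvC r hr m hm)
  refine ⟨T, fin_on S H C hvC T ?_ ?_ ?_⟩
  · intro l hl
    rw [hr l hl, hT l hl]
    push_cast
    rfl
  · obtain ⟨m, hm⟩ := hm2 0 (by omega)
    exact ⟨m, by simpa using hm⟩
  · intro l hl hlin
    by_cases hal : 1 < a l
    · by_cases hJl : ∃ x ∈ C, J x = J l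
      · obtain ⟨x, hx, hJx⟩ := hJl
        have hxl : x ≠ l := fun h => hl (h ▸ hx)
        refine hm3 x hx (a l) hal.le ?_
        obtain ⟨w, hw⟩ := (S.X3 hxl (h1C x hx) hal hJx).2.1
        have h4 := (S.hJ x (h1C x hx)).1
        have h5 : L x = a l * w := by
          have : L x * a x = (a l * w) * a x := by rw [h4, hw]; ring
          exact Nat.eq_of_mul_eq_mul_right (S.ha x) this
        exact Nat.le_of_dvd (S.Lpos (h1C x hx)) ⟨w, h5⟩
      · push Not at hJl
        refine hm2 (a l) ?_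
        have h4 := S.budgetC C h1C hinj {J l} (fun i hi h => hJl i hi (Finset.mem_singleton.1 h))
        rw [Finset.sum_singleton] at h4
        have h5 := S.X2 hlin
        omega
    · refine hm2 (a l) ?_
      have := S.ha l
      omega

/-- closed pairs: the other coordinates -/
theorem pair_oth (S : SysH a d e f J L) {i k : Fin N} (hik : i ≠ k) (hai : 1 < a i)
    (hak : 1 < a k) (hJ : J i ≠ J k) (h1 : a k ≤ L i) (h2 : a i ≤ L k) :
    (∀ l, l ≠ i → l ≠ k → NL a L l → a l + (a i - 1) * (a k - 1) ≤ e) ∧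
    2 * ((a i - 1) * (a k - 1)) + 1 ≤ e := by
  have h3 := S.X1 hai
  have h4 := S.X1 hak
  have h5 : (a k - 1) * (a i - 1) ≤ (L i - 1) * (a i - 1) := Nat.mul_le_mul_right _ (by omega)
  have h6 : (a i - 1) * (a k - 1) ≤ (L k - 1) * (a k - 1) := Nat.mul_le_mul_right _ (by omega)
  have h7 : (a k - 1) * (a i - 1) = (a i - 1) * (a k - 1) := mul_comm _ _
  have h8 := S.X0 hJ
  refine ⟨?_, by omega⟩
  intro l hli hlk hlin
  have h9 := S.X2 hlin
  by_cases hJl : J l = J k
  · have h10 : J l ≠ J i := fun h => hJ (by rw [← h, hJl])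
    have h11 := S.X0 h10
    omega
  · have h11 := S.X0 hJl
    omega

/-- units and ratios for a closed pair -/
theorem pair_ratio (S : SysH a d e f J L) (H : RelG a e f v y) {i k : Fin N} (hik : i ≠ k)
    (hi : v i ≠ 0) (hk : v k ≠ 0)
    (he : ∀ b, b = a i ∨ b = a k → b + (a i - 1) * (a k - 1) ≤ e) :
    IsUnit (y i) ∧ IsUnit (y k) := by
  have hv : ∀ x ∈ ({i, k} : Finset (Fin N)), v x ≠ 0 := by
    intro x hx
    rcases Finset.mem_insert.1 hx with h | h
    · rw [h]; exact hi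
    · rw [Finset.mem_singleton.1 h]; exact hk
  obtain ⟨m1, hm1⟩ := rep2 (b := a i) hik (S.hcop i k hik) (e := e) (he _ (Or.inl rfl))
  obtain ⟨m2, hm2⟩ := rep2 (b := a k) hik (S.hcop i k hik) (e := e) (he _ (Or.inr rfl))
  exact ⟨unit_of H _ hv hi m1 hm1, unit_of H _ hv hk m2 hm2⟩

/-- other coordinates which vanish at `v` -/
theorem pair_zero (S : SysH a d e f J L) (H : RelG a e f v y) {i k : Fin N} (hik : i ≠ k)
    (hi : v i ≠ 0) (hk : v k ≠ 0) (hyi : IsUnit (y i)) (hyk : IsUnit (y k))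
    (hoth : ∀ l, l ≠ i → l ≠ k → NL a L l → a l + (a i - 1) * (a k - 1) ≤ e) :
    ∀ x, NL a L x → v x = 0 → y x = 0 := by
  intro x hxN hvx
  have hxi : x ≠ i := fun h => hi (h ▸ hvx)
  have hxk : x ≠ k := fun h => hk (h ▸ hvx)
  obtain ⟨m, hm⟩ := rep2 hik (S.hcop i k hik) (hoth x hxi hxk hxN)
  refine zero_of H {i, k} ?_ hvx m hm
  intro z hz
  rcases Finset.mem_insert.1 hz with h | h
  · rw [h]; exact hyi
  · rw [Finset.mem_singleton.1 h]; exact hyk

/-- the main part of the case of a closed pair with different equations -/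
theorem alpha_aux (hStar : S_STAR) (hBin : S_BIN) (hGap : S_GAP) (S : SysH a d e f J L)
    (H : RelG a e f v y) (hone : ∀ m, v m ≠ 0 → 1 < a m)
    (hT : ∀ x ∈ II a L v, ∀ x' ∈ II a L v, x ≠ x' → J x = J x' → L x = a x')
    {i k : Fin N} (hi : i ∈ II a L v) (hk : k ∈ II a L v) (hik : i ≠ k) (hJ : J i ≠ J k)
    (hL : L k = a i) (hLi : a k < L i) (hlt : a i < a k) :
    ∃ T : Bˣ, ∀ l, y l = (T : B) ^ a l * algebraMap ℂ B (v l) := by
  classical
  have hvi := (mem_II.1 hi).2
  have hvk := (mem_II.1 hk).2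
  have hai := hone i hvi
  have hak := hone k hvk
  obtain ⟨hoth, he2⟩ := pair_oth S hik hai hak hJ hLi.le (by rw [hL])
  obtain ⟨hX4, huniq⟩ := S.X4 hak hJ hL
  have hX1 := S.X1 hai
  have hX1' : a k * (a i - 1) ≤ (L i - 1) * (a i - 1) := Nat.mul_le_mul_right _ (by omega)
  have hcomm : a k * (a i - 1) = (a i - 1) * a k := mul_comm _ _
  have hX0 := S.X0 hJ
  have hunits := pair_ratio S H hik hvi hvk (by
    have h1 : 1 * (a k - 1) ≤ (a i - 1) * (a k - 1) := Nat.mul_le_mul_right _ (by omega)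
    have h2 : (a i - 1) * 1 ≤ (a i - 1) * (a k - 1) := Nat.mul_le_mul_left _ (by omega)
    rintro b (rfl | rfl) <;> omega)
  obtain ⟨X, hX⟩ := exists_ratio hvi hunits.1
  obtain ⟨Y, hY⟩ := exists_ratio hvk hunits.2
  have hvI : ∀ x ∈ II a L v, v x ≠ 0 := fun x hx => (mem_II.1 hx).2
  refine pairH S H hik hvi hvk hX hY ?_ (by omega) hoth
  by_cases hrep : ∃ n, dg a (II a L v) n + a i * a k = e
  · obtain ⟨n, hn⟩ := hrep
    exact rel_of_rep H (II a L v) hvI hi hk hX hY n hn
  push Not at hrep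
  refine hBin a L (II a L v) v y i k hi hk hik (fun x hx => hone x (hvI x hx))
    (fun x _ x' _ h => S.hcop x x' h) hL ?_ ?_ hvi hvk X Y hX hY
  · intro l hl hli hlk
    have hal := hone l (hvI l hl)
    have hJlk : J l ≠ J k := fun h => hlk (huniq l hal h)
    refine hGap (a i) (a k) (a l) e hai hlt hal (S.hcop i k hik) (S.hcop i l hli.symm)
      (S.hcop k l hlk.symm) ?_ (by omega) ?_
    · by_cases hJl : J l = J i
      · right
        have h1 := hT i hi l hl hli.symm hJl.symm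
        rw [h1] at hLi hX1
        have h2 : (a l - 1) * (a i - 1) = (a i - 1) * (a l - 1) := mul_comm _ _
        exact ⟨hLi, by omega⟩
      · left
        have h1 := S.X2 (mem_II.1 hl).1
        have h2 := S.X000 hJ (Ne.symm hJl) (Ne.symm hJlk)
        omega
    · intro x z w h1
      refine hrep (fun t => (if t = i then x else 0) + ((if t = k then z else 0) +
        (if t = l then w else 0))) ?_
      rw [dg_add, dg_add, dg_single a _ hi, dg_single a _ hk, dg_single a _ hl]
      omega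
  · exact lin_rel hStar S H (pair_zero S H hik hvi hvk hunits.1 hunits.2 hoth)
      (mem_II.1 hk).1 hak

/-- a closed pair with different equations -/
theorem alpha (hStar : S_STAR) (hBin : S_BIN) (hGap : S_GAP) (S : SysH a d e f J L)
    (H : RelG a e f v y) (hone : ∀ m, v m ≠ 0 → 1 < a m)
    (hT : ∀ x ∈ II a L v, ∀ x' ∈ II a L v, x ≠ x' → J x = J x' → L x = a x')
    {i k : Fin N} (hi : i ∈ II a L v) (hk : k ∈ II a L v) (hik : i ≠ k) (hJ : J i ≠ J k)
    (hcl : Closed a L {i, k}) :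
    ∃ T : Bˣ, ∀ l, y l = (T : B) ^ a l * algebraMap ℂ B (v l) := by
  have hvi := (mem_II.1 hi).2
  have hvk := (mem_II.1 hk).2
  have hai := hone i hvi
  have hak := hone k hvk
  have h1 := closed_pair_ge hik (by omega) (S.hcop i k hik) hcl
  have h2 := closed_pair_ge hik.symm (by omega) (S.hcop k i hik.symm)
    (by rw [Finset.pair_comm]; exact hcl)
  obtain ⟨hoth, -⟩ := pair_oth S hik hai hak hJ h1 h2
  have hX1 := S.X1 hai
  have hX1' := S.X1 hak
  have hX0 := S.X0 hJ
  have hne : a i ≠ a k := fun h => by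
    have := (S.hcop i k hik).eq_one_of_dvd ⟨1, by rw [h, mul_one]⟩
    omega
  obtain ⟨p, hp⟩ : ∃ p, a i = p + 1 := ⟨a i - 1, by omega⟩
  obtain ⟨s, hs⟩ : ∃ s, a k = s + 1 := ⟨a k - 1, by omega⟩
  have e1 : a i * a k + (a i - 1) * (a k - 1) = 2 * (p * s) + p + s + 1 := by
    rw [hp, hs]
    simp only [Nat.add_sub_cancel]
    ring
  have e2 : (a i - 1) * a k = p * s + p := by
    rw [hp, hs, Nat.add_sub_cancel]
    ring
  have e3 : (a k - 1) * a i = p * s + s := by
    rw [hp, hs, Nat.add_sub_cancel]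
    ring
  -- strict inequalities
  have hs1 : a k < L i → a k * (a i - 1) ≤ XG a d J (J i) := fun h =>
    (Nat.mul_le_mul_right _ (by omega)).trans hX1
  have hs2 : a i < L k → a i * (a k - 1) ≤ XG a d J (J k) := fun h =>
    (Nat.mul_le_mul_right _ (by omega)).trans hX1'
  have e4 : a k * (a i - 1) = p * s + p := by rw [mul_comm, e2]
  have e5 : a i * (a k - 1) = p * s + s := by rw [mul_comm, e3]
  rcases Nat.eq_or_lt_of_le h1 with h3 | h3
  · -- L i = a k
    obtain ⟨h5, -⟩ := S.X4 hai (Ne.symm hJ) h3.symm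
    rcases Nat.eq_or_lt_of_le h2 with h4 | h4
    · obtain ⟨h6, -⟩ := S.X4 hak hJ h4.symm
      exact roomyH S H hik hvi hvk hai hak (by omega) hoth
    · have h6 := hs2 h4
      rcases Nat.lt_or_gt_of_ne hne with h7 | h7
      · exact roomyH S H hik hvi hvk hai hak (by omega) hoth
      · exact alpha_aux hStar hBin hGap S H hone hT hk hi hik.symm (Ne.symm hJ) h3.symm h4 h7
  · rcases Nat.eq_or_lt_of_le h2 with h4 | h4
    · obtain ⟨h6, -⟩ := S.X4 hak hJ h4.symm
      have h5 := hs1 h3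
      rcases Nat.lt_or_gt_of_ne hne with h7 | h7
      · exact alpha_aux hStar hBin hGap S H hone hT hi hk hik hJ h4.symm h3 h7
      · exact roomyH S H hik hvi hvk hai hak (by omega) hoth
    · have h5 := hs1 h3
      have h6 := hs2 h4
      exact roomyH S H hik hvi hvk hai hak (by omega) hoth

/-- two tight pairs -/
theorem quadH (S : SysH a d e f J L) (H : RelG a e f v y) {i k l m : Fin N} (hik : i ≠ k)
    (hlm : l ≠ m) (hi : v i ≠ 0) (hl : v l ≠ 0) (hai : 1 < a i) (hak : 1 < a k) (hal : 1 < a l)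
    (ham : 1 < a m) (hJ : J i = J k) (hJ' : J l = J m) (hne : J i ≠ J l)
    (hT : ∀ x, 1 < a x → J x = J i → x = i ∨ x = k)
    (hT' : ∀ x, 1 < a x → J x = J l → x = l ∨ x = m) (hlt : a i < a k) (hlt' : a l < a m) :
    ∃ T : Bˣ, ∀ l, y l = (T : B) ^ a l * algebraMap ℂ B (v l) := by
  have h1 := (S.X3 hik hai hak hJ).1
  have h2 := (S.X3 hlm hal ham hJ').1
  have h3 := S.X0 hne
  obtain ⟨h4, h5, h6⟩ := quad_num hai hal hlt hlt'
  have hil : i ≠ l := fun h => hne (by rw [h])
  have h7 : 1 ≤ a i * a l := Nat.mul_pos (S.ha i) (S.ha l)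
  refine roomyH S H hil hi hl hai hal (by omega) (fun x hxi hxl hlin => ?_)
  by_cases hx : 1 < a x
  · by_cases h : J x = J i
    · rcases hT x hx h with h | h
      · exact absurd h hxi
      · subst h; omega
    by_cases h' : J x = J l
    · rcases hT' x hx h' with h | h
      · exact absurd h hxl
      · subst h; omega
    have h8 := S.X000 hne (Ne.symm h) (Ne.symm h')
    have h9 := S.X2 hlin
    omega
  · have h10 : 1 * 1 ≤ a i * a l := Nat.mul_le_mul (by omega) (by omega)
    omega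

end Pool.Agent.K3h16.FG
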