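import Pool.Agent.K3h16.FG.Alg

/-! Consequences of the elimination of the linear variables. -/

set_option autoImplicit false

namespace Pool.Agent.K3h16.FG

open MvPolynomial Pool.Agent.R920.WC Pool.Agent.H61.Fu Pool.Agent.K3h16.FU Pool.Agent.H39R2.Fuj

variable {N c : ℕ} {B : Type} [CommRing B] [Algebra ℂ B]
  {a : Fin N → ℕ} {d : Fin c → ℕ} {e : ℕ} {f : Fin c → MvPolynomial (Fin N) ℂ}
  {J : Fin N → Fin c} {L : Fin N → ℕ} {v : Fin N → ℂ} {y : Fin N → B}

open Classical in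
/-- the nonlinear coordinates which do not vanish at `v` -/
noncomputable def II (a L : Fin N → ℕ) (v : Fin N → ℂ) : Finset (Fin N) :=
  Finset.univ.filter fun k => NL a L k ∧ v k ≠ 0

theorem mem_II {k : Fin N} : k ∈ II a L v ↔ NL a L k ∧ v k ≠ 0 := by
  classical
  simp [II]

theorem aeval_zz (g : MvPolynomial (Fin N) ℂ) :
    aeval (fun k => ((v k, y k) : ℂ × B)) g = (eval v g, aeval y g) := by
  have h1 : (AlgHom.fst ℂ ℂ B).comp (aeval (fun k => ((v k, y k) : ℂ × B))) = aeval v :=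
    MvPolynomial.algHom_ext fun i => by simp
  have h2 : (AlgHom.snd ℂ ℂ B).comp (aeval (fun k => ((v k, y k) : ℂ × B))) = aeval y :=
    MvPolynomial.algHom_ext fun i => by simp
  refine Prod.ext ?_ ?_
  · have := congrArg (fun φ : MvPolynomial (Fin N) ℂ →ₐ[ℂ] ℂ => φ g) h1
    simpa [aeval_eq_eval] using this
  · exact congrArg (fun φ : MvPolynomial (Fin N) ℂ →ₐ[ℂ] B => φ g) h2

theorem zz_zero (H : RelG a e f v y) (j : Fin c) :
    aeval (fun k => ((v k, y k) : ℂ × B)) (f j) = 0 := by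
  rw [aeval_zz, H.hfv, H.hfy]
  rfl

theorem fst_prodz (C : Finset (Fin N)) (m : Fin N → ℕ) :
    (∏ k ∈ C, ((v k, y k) : ℂ × B) ^ m k).1 = ∏ k ∈ C, v k ^ m k := by
  rw [Prod.fst_prod]
  rfl

theorem exists_NL (hStar : S_STAR) (S : SysH a d e f J L) (H : RelG a e f v y) (hv : v ≠ 0) :
    (II a L v).Nonempty := by
  classical
  obtain ⟨l, hl⟩ : ∃ l, v l ≠ 0 := by
    by_contra hcon
    push Not at hcon
    exact hv (funext hcon)
  by_contra hne
  rw [Finset.not_nonempty_iff_eq_empty] at hne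
  have h0 : ∀ k, NL a L k → v k = 0 := by
    intro k hk
    by_contra h
    have := mem_II.2 ⟨hk, h⟩
    rw [hne] at this
    exact absurd this (Finset.notMem_empty k)
  have h1 := (hStar a d f J L S.ha S.hcop S.hd S.hf S.hJ (fun k => ((v k, y k) : ℂ × B))
    (zz_zero H)).1 l
  have h2 : Submodule.span ℂ {w : ℂ × B | ∃ m : Fin N → ℕ, (∀ k, ¬ NL a L k → m k = 0) ∧
      ∑ k, m k * a k = a l ∧ w = ∏ k, ((v k, y k) : ℂ × B) ^ m k} ≤
      LinearMap.ker (LinearMap.fst ℂ ℂ B) := by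
    rw [Submodule.span_le]
    rintro w ⟨m, hm0, hm1, rfl⟩
    show (∏ k, ((v k, y k) : ℂ × B) ^ m k).1 = 0
    rw [fst_prodz]
    obtain ⟨k, hk⟩ : ∃ k, m k ≠ 0 := by
      by_contra hcon
      push Not at hcon
      have : ∑ k, m k * a k = 0 := Finset.sum_eq_zero fun k _ => by rw [hcon k, zero_mul]
      have := S.ha l
      omega
    have hkNL : NL a L k := by
      by_contra h
      exact hk (hm0 k h)
    exact Finset.prod_eq_zero (Finset.mem_univ k) (by rw [h0 k hkNL, zero_pow hk])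
  exact hl (h2 h1)

theorem weight_on {C : Finset (Fin N)} {m : Fin N → ℕ} (h : ∀ k, k ∉ C → m k = 0) :
    ∑ k ∈ C, m k * a k = ∑ k, m k * a k :=
  Finset.sum_subset (Finset.subset_univ _) fun k _ hk => by rw [h k hk, zero_mul]

theorem prod_on {M : Type*} [CommMonoid M] (z : Fin N → M) {C : Finset (Fin N)} {m : Fin N → ℕ}
    (h : ∀ k, k ∉ C → m k = 0) : ∏ k ∈ C, z k ^ m k = ∏ k, z k ^ m k :=
  Finset.prod_subset (Finset.subset_univ _) fun k _ hk => by rw [h k hk, pow_zero]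

/-- the nonlinear support is closed -/
theorem exists_rel (hStar : S_STAR) (S : SysH a d e f J L) (H : RelG a e f v y) {i : Fin N}
    (hi : i ∈ II a L v) (hai : 1 < a i) : ∃ m, Rel a L (II a L v) i m := by
  classical
  by_contra hcon
  push Not at hcon
  obtain ⟨hiN, hvi⟩ := mem_II.1 hi
  have hL1 : L i ≠ 1 := fun h => hiN ⟨hai, h⟩
  have h1 := (hStar a d f J L S.ha S.hcop S.hd S.hf S.hJ (fun k => ((v k, y k) : ℂ × B))
    (zz_zero H)).2 i hai hL1
  have h2 : Submodule.span ℂ {w : ℂ × B | ∃ m : Fin N → ℕ,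
      (∀ k, ¬ NL a L k → m k = 0) ∧ ∑ k, m k * a k = L i * a i ∧ (∃ k, k ≠ i ∧ m k ≠ 0) ∧
      w = ∏ k, ((v k, y k) : ℂ × B) ^ m k} ≤ LinearMap.ker (LinearMap.fst ℂ ℂ B) := by
    rw [Submodule.span_le]
    rintro w ⟨m, hm0, hm1, ⟨k, hki, hmk⟩, rfl⟩
    show (∏ k, ((v k, y k) : ℂ × B) ^ m k).1 = 0
    rw [fst_prodz]
    by_contra hne
    have h3 : ∀ k, k ∉ II a L v → m k = 0 := by
      intro k hk
      by_contra hmk
      have hkN : NL a L k := by
        by_contra h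
        exact hmk (hm0 k h)
      have hvk : v k = 0 := by
        by_contra h
        exact hk (mem_II.2 ⟨hkN, h⟩)
      exact hne (Finset.prod_eq_zero (Finset.mem_univ k) (by rw [hvk, zero_pow hmk]))
    refine hcon m ⟨by rw [weight_on h3, hm1], k, ?_, hki, hmk⟩
    by_contra h
    exact hmk (h3 k h)
  have h3 : (((v i, y i) : ℂ × B) ^ L i).1 = 0 := h2 h1
  have h4 : v i ^ L i = 0 := h3
  exact pow_ne_zero _ hvi h4

/-- the linear relations on the nonlinear support -/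
theorem lin_rel (hStar : S_STAR) (S : SysH a d e f J L) (H : RelG a e f v y)
    (h0 : ∀ k, NL a L k → v k = 0 → y k = 0) {i : Fin N}
    (hiN : NL a L i) (hai : 1 < a i) :
    ((v i, y i) : ℂ × B) ^ L i ∈ Submodule.span ℂ {w : ℂ × B | ∃ m, Rel a L (II a L v) i m ∧
      w = ∏ x ∈ II a L v, ((v x, y x) : ℂ × B) ^ m x} := by
  classical
  have hL1 : L i ≠ 1 := fun h => hiN ⟨hai, h⟩
  have h1 := (hStar a d f J L S.ha S.hcop S.hd S.hf S.hJ (fun k => ((v k, y k) : ℂ × B))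
    (zz_zero H)).2 i hai hL1
  refine (Submodule.span_le.2 ?_) h1
  rintro w ⟨m, hm0, hm1, ⟨k, hki, hmk⟩, rfl⟩
  by_cases h3 : ∀ k, k ∉ II a L v → m k = 0
  · refine Submodule.subset_span ⟨m, ⟨by rw [weight_on h3, hm1], k, ?_, hki, hmk⟩,
      (prod_on _ h3).symm⟩
    by_contra h
    exact hmk (h3 k h)
  · push Not at h3
    obtain ⟨x, hx, hmx⟩ := h3
    have hxN : NL a L x := by
      by_contra h
      exact hmx (hm0 x h)
    have hvx : v x = 0 := by
      by_contra h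
      exact hx (mem_II.2 ⟨hxN, h⟩)
    have h4 : ∏ k, ((v k, y k) : ℂ × B) ^ m k = 0 := by
      refine Finset.prod_eq_zero (Finset.mem_univ x) ?_
      rw [hvx, h0 x hxN hvx]
      exact zero_pow hmx
    rw [h4]
    exact Submodule.zero_mem _

end Pool.Agent.K3h16.FG
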