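import Pool.Agent.K3h16.FG.Final

/-!
# Fujita's very ampleness conjecture for weighted complete intersections with pairwise coprime
weights, arbitrary codimension

Let `X = V(f_1, ..., f_c)` be a complete intersection of degrees `d_1, ..., d_c` and dimension `n`
in the weighted projective space `P(a_0, ..., a_{n+c})` with pairwise coprime weights, such that
`O(1)` is invertible on `X`, that is, for each point of `X` the weights of its nonzero coordinates
have greatest common divisor one (equivalently, `X` contains none of the points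
`(0, ..., 1, ..., 0)` with `a_i > 1`). Then `K_X = O(∑ d_j - ∑ a_i)`, and for `A = O(k)`, `k ≥ 1`,
and `m ≥ n + 2` the bundle `K_X + m A = O(e)` is very ample: its sections given by the forms of
weighted degree `e` have no base point, separate points and separate tangent vectors.

The proof. A pair of points, or a tangent vector, which is not separated is a point `y` of `X` with
values in `B = ℂ` or `ℂ[ε]` with `s(y) = s(v)` for all forms `s` of degree `e`; one has to show
`y_i = T^{a_i} v_i`. Choose for each `a_i > 1` an equation `f_{J(i)}` in which the pure power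
`x_i^{q_i}` appears; the variables with `q_i = 1` are eliminated. Put
`X_j = d_j - 1 - ∑_{J(i) = j} (a_i - 1)`; then `∑ X_j + 1 ≤ e` and `(q_i - 1)(a_i - 1) ≤ X_{J(i)}`.
If all nonzero coordinates of `v` have weights at least two, the equations show that the set `I` of
the nonzero nonlinear coordinates is closed: each `q_i a_i`, `i ∈ I`, is a combination of the
weights in `I` in a second way. Let `C` be a minimal closed subset.

If `C` has at least three elements, let `c_i ≤ q_i` be the least `c ≥ 1` such that `c a_i` is a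
combination of the other weights in `C`. By a duality for the semigroup generated by the weights in
`C` (proved by chip-firing with a sink) there is at most one index `i` such that `e - c_i a_i` is
not in the semigroup; for the others the relations hold for the ratios `y_i / v_i`, and chip-firing
with this index as the sink shows that the ratios are `T^{a_i}`.

If all minimal closed subsets are pairs `{i, k}`, then, unless `e` is so large that the relation
`(y_i / v_i)^{a_k} = (y_k / v_k)^{a_i}` is given by the sections, it is given by the equation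
`f_{J(k)}` or, if some other weight in `I` is not a combination of `a_i` and `a_k`, by linear
chip-firing with the equations `f_{J(l)}` for the other elements `l` of `I`.
-/

set_option autoImplicit false

namespace Pool.Agent.K3h16.FG.SecondProof

open MvPolynomial

/-- `K_X + m A` is very ample for `A = O(k)`, `k ≥ 1`, `m ≥ n + 2`, if `X` is a weighted complete
intersection of dimension `n` with pairwise coprime weights on which `O(1)` is invertible. -/
theorem result (n c : ℕ) (a : Fin (n + c + 1) → ℕ) (ha : ∀ i, 0 < a i)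
    (hcop : ∀ i i', i ≠ i' → Nat.Coprime (a i) (a i')) (d : Fin c → ℕ) (hd : ∀ j, 0 < d j)
    (f : Fin c → MvPolynomial (Fin (n + c + 1)) ℂ) (hf : ∀ j, IsWeightedHomogeneous a (f j) (d j))
    (hgcd : ∀ v : Fin (n + c + 1) → ℂ, v ≠ 0 → (∀ j, eval v (f j) = 0) →
      ∀ g : ℕ, (∀ i, v i ≠ 0 → g ∣ a i) → g = 1)
    (k m e : ℕ) (hk : 1 ≤ k) (hm : n + 2 ≤ m) (he : e + ∑ i, a i = ∑ j, d j + m * k) :
    -- no base points
    (∀ v : Fin (n + c + 1) → ℂ, v ≠ 0 → (∀ j, eval v (f j) = 0) →
      ∃ s : MvPolynomial (Fin (n + c + 1)) ℂ, IsWeightedHomogeneous a s e ∧ eval v s ≠ 0) ∧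
    -- points are separated
    (∀ v w : Fin (n + c + 1) → ℂ, v ≠ 0 → w ≠ 0 → (∀ j, eval v (f j) = 0) →
      (∀ j, eval w (f j) = 0) → (¬ ∃ t : ℂ, t ≠ 0 ∧ ∀ i, w i = t ^ a i * v i) →
      ∃ s : MvPolynomial (Fin (n + c + 1)) ℂ, IsWeightedHomogeneous a s e ∧
        eval v s = 0 ∧ eval w s ≠ 0) ∧
    -- tangent vectors are separated
    (∀ v u : Fin (n + c + 1) → ℂ, v ≠ 0 → (∀ j, eval v (f j) = 0) →
      (∀ j, ∑ i, eval v (pderiv i (f j)) * u i = 0) → (¬ ∃ τ : ℂ, ∀ i, u i = τ * (a i * v i)) →
      ∃ s : MvPolynomial (Fin (n + c + 1)) ℂ, IsWeightedHomogeneous a s e ∧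
        eval v s = 0 ∧ ∑ i, eval v (pderiv i s) * u i ≠ 0) := by
  classical
  have hX : ∀ i, 1 < a i → ∃ j, eval (Pi.single i 1 : Fin (n + c + 1) → ℂ) (f j) ≠ 0 := by
    intro i hi
    by_contra hcon
    push Not at hcon
    have h1 := hgcd (Pi.single i 1) (by
      intro h
      have := congrFun h i
      rw [Pi.single_eq_same] at this
      exact one_ne_zero this) hcon (a i) (by
      intro i' hi'
      have : i' = i := by
        by_contra hne
        exact hi' (Pi.single_eq_of_ne hne _)
      rw [this])
    omega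
  -- the sums
  have hsum : ∑ j, (d j - 1) + 1 ≤ e + ∑ i, (a i - 1) := by
    have h1 : ∑ i, a i = ∑ i, (a i - 1) + (n + c + 1) := by
      have : ∑ i, a i = ∑ i, ((a i - 1) + 1) := Finset.sum_congr rfl fun i _ => by
        have := ha i
        omega
      rw [this, Finset.sum_add_distrib]
      simp
    have h2 : ∑ j, d j = ∑ j, (d j - 1) + c := by
      have : ∑ j, d j = ∑ j, ((d j - 1) + 1) := Finset.sum_congr rfl fun j _ => by
        have := hd j
        omega
      rw [this, Finset.sum_add_distrib]
      simp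
    have h3 : n + 2 ≤ m * k := hm.trans (Nat.le_mul_of_pos_right _ hk)
    omega
  -- one more equation `0 = 0`, so that there is an equation
  set d' : Fin (c + 1) → ℕ := Fin.cons 1 d with hd'
  set f' : Fin (c + 1) → MvPolynomial (Fin (n + c + 1)) ℂ := Fin.cons 0 f with hf'
  have hd1 : ∀ j, 0 < d' j := by
    intro j
    refine Fin.cases ?_ ?_ j
    · rw [hd', Fin.cons_zero]; exact one_pos
    · intro j; rw [hd', Fin.cons_succ]; exact hd j
  have hf1 : ∀ j, IsWeightedHomogeneous a (f' j) (d' j) := by
    intro j
    refine Fin.cases ?_ ?_ j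
    · rw [hd', hf', Fin.cons_zero, Fin.cons_zero]; exact isWeightedHomogeneous_zero ℂ a 1
    · intro j; rw [hd', hf', Fin.cons_succ, Fin.cons_succ]; exact hf j
  have hX1 : ∀ i, 1 < a i → ∃ j, eval (Pi.single i 1 : Fin (n + c + 1) → ℂ) (f' j) ≠ 0 := by
    intro i hi
    obtain ⟨j, hj⟩ := hX i hi
    exact ⟨j.succ, by rw [hf', Fin.cons_succ]; exact hj⟩
  have hsum1 : ∑ j, (d' j - 1) + 1 ≤ e + ∑ i, (a i - 1) := by
    rw [Fin.sum_univ_succ, hd', Fin.cons_zero]
    simp only [Fin.cons_succ]
    omega
  have hto : ∀ v : Fin (n + c + 1) → ℂ, (∀ j, eval v (f j) = 0) → ∀ j, eval v (f' j) = 0 := by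
    intro v hv j
    refine Fin.cases ?_ ?_ j
    · rw [hf', Fin.cons_zero, map_zero]
    · intro j; rw [hf', Fin.cons_succ]; exact hv j
  obtain ⟨J, L, S⟩ := Pool.Agent.K3h16.FG.exists_sysH ha hcop hd1 hf1 hX1 hsum1 (Nat.succ_pos c)
  have hb : ∀ v : Fin (n + c + 1) → ℂ, v ≠ 0 → (∀ j, eval v (f j) = 0) →
      ∃ s : MvPolynomial (Fin (n + c + 1)) ℂ, IsWeightedHomogeneous a s e ∧ eval v s ≠ 0 := by
    intro v hv hfv
    exact Pool.Agent.R920.WC.generated a ha hcop d hd f hf hX (by omega) v hv hfv
  have hb1 : ∀ v : Fin (n + c + 1) → ℂ, v ≠ 0 → (∀ j, eval v (f' j) = 0) →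
      ∃ s : MvPolynomial (Fin (n + c + 1)) ℂ, IsWeightedHomogeneous a s e ∧ eval v s ≠ 0 := by
    intro v hv hfv
    refine hb v hv (fun j => ?_)
    have := hfv j.succ
    rwa [hf', Fin.cons_succ] at this
  refine ⟨hb, ?_, ?_⟩
  · intro v w hv hw hfv hfw hne
    by_contra hcon
    push Not at hcon
    exact hne (Pool.Agent.K3h16.FG.pointsH S hb1 v w hv hw (hto v hfv) (hto w hfw) hcon)
  · intro v u hv hfv hfu hne
    by_contra hcon
    push Not at hcon
    refine hne (Pool.Agent.K3h16.FG.tangentsH S hb1 v u hv (hto v hfv) (fun j => ?_) hcon)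
    refine Fin.cases ?_ ?_ j
    · rw [hf', Fin.cons_zero]
      simp [Pool.Agent.H39R2.Fuj.dd]
    · intro j; rw [hf', Fin.cons_succ]; exact hfu j

end Pool.Agent.K3h16.FG.SecondProof
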