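import Pool.Agent.K3h16.FU.Main

/-!
# Very ampleness on weighted complete intersections: definitions, basic lemmas and statements

Statements `S_X` are proved as theorems `t_X` in other files.
-/

set_option autoImplicit false

namespace Pool.Agent.K3h16.FG

open MvPolynomial Pool.Agent.R920.WC

/-- degree of the configuration `m` on `C` -/
def dg {ι : Type} (a : ι → ℕ) (C : Finset ι) (m : ι → ℕ) : ℕ := ∑ k ∈ C, m k * a k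

section dg

variable {ι : Type} [DecidableEq ι] (a : ι → ℕ) (C : Finset ι)

theorem dg_add (m m' : ι → ℕ) : dg a C (fun k => m k + m' k) = dg a C m + dg a C m' := by
  simp only [dg, add_mul, Finset.sum_add_distrib]

theorem dg_single {i : ι} (hi : i ∈ C) (t : ℕ) :
    dg a C (fun k => if k = i then t else 0) = t * a i := by
  simp only [dg, ite_mul, zero_mul, Finset.sum_ite_eq', if_pos hi]

theorem dg_add_single (m : ι → ℕ) {i : ι} (hi : i ∈ C) (t : ℕ) :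
    dg a C (fun k => m k + if k = i then t else 0) = dg a C m + t * a i := by
  rw [dg_add, dg_single a C hi]

theorem dg_sub_single (m : ι → ℕ) {i : ι} (hi : i ∈ C) {t : ℕ} (ht : t ≤ m i) :
    dg a C (fun k => if k = i then m k - t else m k) + t * a i = dg a C m := by
  rw [← dg_add_single a C _ hi t]
  refine Finset.sum_congr rfl fun k _ => ?_
  by_cases h : k = i
  · subst h
    simp only [if_true]
    rw [Nat.sub_add_cancel ht]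
  · simp only [h, if_false, add_zero]

theorem dg_congr {m m' : ι → ℕ} (h : ∀ k ∈ C, m k = m' k) : dg a C m = dg a C m' :=
  Finset.sum_congr rfl fun k hk => by rw [h k hk]

theorem le_dg (m : ι → ℕ) {i : ι} (hi : i ∈ C) : m i * a i ≤ dg a C m :=
  Finset.single_le_sum (f := fun k => m k * a k) (fun _ _ => Nat.zero_le _) hi

theorem dg_mono {m m' : ι → ℕ} (h : ∀ k ∈ C, m k ≤ m' k) : dg a C m ≤ dg a C m' :=
  Finset.sum_le_sum fun k hk => Nat.mul_le_mul_right _ (h k hk)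

theorem dg_erase (m : ι → ℕ) {i : ι} (hi : i ∈ C) :
    m i * a i + dg a (C.erase i) m = dg a C m :=
  Finset.add_sum_erase C (fun k => m k * a k) hi

theorem dg_zero {m : ι → ℕ} (ha : ∀ i ∈ C, 0 < a i) (h : dg a C m = 0) : ∀ k ∈ C, m k = 0 := by
  intro k hk
  have h1 := le_dg a C m hk
  have h2 : m k * a k = 0 := by omega
  rcases Nat.mul_eq_zero.1 h2 with h3 | h3
  · exact h3
  · have := ha k hk
    omega

end dg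

/-- `c i` is the least `t ≥ 1` such that `t * a i` is a combination of the `a k`, `k ∈ I`,
`k ≠ i` -/
structure MinExp {ι : Type} (a c : ι → ℕ) (I : Finset ι) : Prop where
  pos : ∀ i ∈ I, 1 ≤ c i
  rel : ∀ i ∈ I, ∃ m : ι → ℕ, m i = 0 ∧ dg a I m = c i * a i
  min : ∀ i ∈ I, ∀ (t : ℕ) (m : ι → ℕ), 1 ≤ t → m i = 0 → dg a I m = t * a i → c i ≤ t

/-- (POT) potentials: `Z` is the set of sinks -/
def S_POT : Prop := ∀ {ι : Type} [DecidableEq ι] (a ℓ : ι → ℕ) (I Z : Finset ι), Z ⊆ I →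
  (∀ U ⊆ I \ Z, ¬ Closed a ℓ U) →
  ∃ W : ι → ℕ, ∀ i ∈ I \ Z, ∀ m, Rel a ℓ I i m → ℓ i * W i < dg W I m

/-- (RED) reduction of a configuration, its value in a group is kept -/
def S_RED : Prop := ∀ {ι : Type} [DecidableEq ι] {G : Type} [CommGroup G] (r : ι → G)
  (a ℓ W V : ι → ℕ) (I Z : Finset ι) (M : ι → ι → ℕ), (∀ i ∈ I, 0 < a i) →
  (∀ i ∈ I \ Z, dg a I (M i) = ℓ i * a i) →
  (∀ i ∈ I \ Z, ∏ k ∈ I, r k ^ M i k = r i ^ ℓ i) →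
  (∀ i ∈ I \ Z, ℓ i * W i < dg W I (M i)) →
  (∀ i ∈ I \ Z, ℓ i * V i ≤ dg V I (M i)) →
  ∀ m₀ : ι → ℕ, ∃ m : ι → ℕ, dg a I m = dg a I m₀ ∧
    ∏ k ∈ I, r k ^ m k = ∏ k ∈ I, r k ^ m₀ k ∧ dg W I m₀ ≤ dg W I m ∧ dg V I m₀ ≤ dg V I m ∧
    ∀ i ∈ I \ Z, m i < ℓ i

/-- (REDLIN) linear reduction -/
def S_REDLIN : Prop := ∀ {ι : Type} [DecidableEq ι] {A : Type} [CommRing A] [Algebra ℂ A]
  (z : ι → A) (a ℓ W : ι → ℕ) (I Z : Finset ι), (∀ i ∈ I, 0 < a i) →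
  (∀ i ∈ I \ Z, ∀ m, Rel a ℓ I i m → ℓ i * W i < dg W I m) →
  (∀ i ∈ I \ Z, z i ^ ℓ i ∈
    Submodule.span ℂ {w | ∃ m, Rel a ℓ I i m ∧ w = ∏ k ∈ I, z k ^ m k}) →
  ∀ m₀ : ι → ℕ, ∏ k ∈ I, z k ^ m₀ k ∈ Submodule.span ℂ
    {w | ∃ m : ι → ℕ, dg a I m = dg a I m₀ ∧ (∀ i ∈ I \ Z, m i < ℓ i) ∧
      w = ∏ k ∈ I, z k ^ m k}

/-- (MIN) minimal exponents -/
def S_MIN : Prop := ∀ {ι : Type} [DecidableEq ι] (a : ι → ℕ) (I : Finset ι), (∀ i ∈ I, 0 < a i) →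
  ((∀ i ∈ I, ∃ k ∈ I, k ≠ i) → ∃ c, MinExp a c I) ∧
  ∀ c, MinExp a c I →
    (∀ i ∈ I, ∀ (t : ℕ) (m : ι → ℕ), t < c i → dg a I m = t * a i →
      m i = t ∧ ∀ k ∈ I, k ≠ i → m k = 0) ∧
    (∀ i ∈ I, ∀ k ∈ I, k ≠ i → c i ≤ a k) ∧
    (∀ (q : ι → ℕ), ∀ i ∈ I, ∀ m, Rel a q I i m → c i ≤ q i)

/-- (AXIS) the axis bound -/
def S_AXIS : Prop := ∀ {ι : Type} [DecidableEq ι] (a c : ι → ℕ) (I : Finset ι),
  (∀ i ∈ I, 1 < a i) → (∀ i ∈ I, ∀ k ∈ I, i ≠ k → Nat.Coprime (a i) (a k)) → MinExp a c I →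
  ∀ i ∈ I, 1 + ∑ x ∈ I.erase i, (c x - 1) ≤ a i

/-- (CLO) the minimal exponents of a minimal closed set -/
def S_CLO : Prop := ∀ {ι : Type} [DecidableEq ι] (a q c : ι → ℕ) (C : Finset ι),
  (∀ i ∈ C, 1 < a i) → (∀ i ∈ C, ∀ k ∈ C, i ≠ k → Nat.Coprime (a i) (a k)) →
  Minimal' a q C → MinExp a c C →
  Minimal' a c C ∧ (∀ i ∈ C, 2 ≤ c i) ∧ (∀ i ∈ C, c i ≤ q i)

/-- (DUAL) duality -/
def S_DUAL : Prop := ∀ {ι : Type} [DecidableEq ι] (a c : ι → ℕ) (C : Finset ι),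
  (∀ i ∈ C, 1 < a i) → (∀ i ∈ C, ∀ k ∈ C, i ≠ k → Nat.Coprime (a i) (a k)) →
  MinExp a c C → Minimal' a c C → ∀ (E : ℕ) (l r : ι), l ∈ C → r ∈ C →
  (∀ n : ι → ℕ, dg a C n = E → n l < c l) →
  ∃ κ : ι → ℕ, dg a C κ + E + c r * a r = ∑ i ∈ C, (c i - 1) * a i + c l * a l

/-- (ONEBAD) at most one bad index -/
def S_ONEBAD : Prop := ∀ {ι : Type} [DecidableEq ι] (a c : ι → ℕ) (C : Finset ι),
  (∀ i ∈ C, 1 < a i) → (∀ i ∈ C, ∀ k ∈ C, i ≠ k → Nat.Coprime (a i) (a k)) →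
  MinExp a c C → Minimal' a c C → (∀ i ∈ C, 2 ≤ c i) → 3 ≤ C.card →
  ∀ e : ℕ, ∑ i ∈ C, (c i - 1) * (a i - 1) + 1 ≤ e →
  ∀ l ∈ C, ∀ p ∈ C, l ≠ p → (∀ n : ι → ℕ, dg a C n = e → n l < c l) →
  (∀ n : ι → ℕ, dg a C n = e → n p < c p) → False

/-- (VAL) the values of configurations of degree `e` modulo `a i₀` -/
def S_VAL : Prop := ∀ {ι : Type} [DecidableEq ι] {G : Type} [CommGroup G] (r : ι → G)
  (a c : ι → ℕ) (C : Finset ι), (∀ i ∈ C, 1 < a i) →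
  MinExp a c C → Minimal' a c C → ∀ e : ℕ,
  (∀ m : ι → ℕ, dg a C m = e → ∏ k ∈ C, r k ^ m k = 1) → ∀ i₀ ∈ C,
  (∀ l ∈ C, l ≠ i₀ → ∃ n : ι → ℕ, dg a C n = e ∧ c l ≤ n l) →
  ∑ i ∈ C.erase i₀, (c i - 1) * a i < e + a i₀ →
  ∀ (m : ι → ℕ) (y : ℕ), dg a C m = e + y * a i₀ → ∏ k ∈ C, r k ^ m k = r i₀ ^ y

/-- (RANK) a common root -/
def S_RANK : Prop := ∀ {ι : Type} [DecidableEq ι] {G : Type} [CommGroup G] (r : ι → G)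
  (a : ι → ℕ) (C : Finset ι), (∀ i ∈ C, 0 < a i) → ∀ i₀ ∈ C, ∀ i₁ ∈ C,
  Nat.Coprime (a i₁) (a i₀) → ∀ e : ℕ,
  (∀ (m : ι → ℕ) (y : ℕ), dg a C m = e + y * a i₀ → ∏ k ∈ C, r k ^ m k = r i₀ ^ y) →
  ∃ T : G, ∀ l ∈ C, r l = T ^ a l

/-- (MEM) some numbers in the semigroup of a minimal closed set -/
def S_MEM : Prop := ∀ {ι : Type} [DecidableEq ι] (a q : ι → ℕ) (C : Finset ι),
  (∀ i ∈ C, 1 < a i) → (∀ i ∈ C, ∀ k ∈ C, i ≠ k → Nat.Coprime (a i) (a k)) →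
  Minimal' a q C → (∀ i ∈ C, 1 ≤ q i) → ∀ e : ℕ, ∑ i ∈ C, (q i - 1) * (a i - 1) + 1 ≤ e →
  (∀ i ∈ C, ∃ m : ι → ℕ, dg a C m + a i = e) ∧
  (∀ b : ℕ, ∑ i ∈ C, (q i - 1) * (a i - 1) + b ≤ e → ∃ m : ι → ℕ, dg a C m + b = e) ∧
  (∀ i ∈ C, ∀ b : ℕ, 1 ≤ b → b ≤ q i → ∃ m : ι → ℕ, dg a C m + b = e)

/-- (THMA) a minimal closed set with at least three elements -/
def S_THMA : Prop := ∀ {ι : Type} [DecidableEq ι] {G : Type} [CommGroup G] (r : ι → G)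
  (a q : ι → ℕ) (C : Finset ι), (∀ i ∈ C, 1 < a i) →
  (∀ i ∈ C, ∀ k ∈ C, i ≠ k → Nat.Coprime (a i) (a k)) → Minimal' a q C → 3 ≤ C.card →
  (∀ i ∈ C, 1 ≤ q i) → ∀ e : ℕ, ∑ i ∈ C, (q i - 1) * (a i - 1) + 1 ≤ e →
  (∀ m : ι → ℕ, dg a C m = e → ∏ k ∈ C, r k ^ m k = 1) → ∃ T : G, ∀ l ∈ C, r l = T ^ a l

/-- the variable `k` is not eliminated by a linear equation -/
def NL {N : ℕ} (a L : Fin N → ℕ) (k : Fin N) : Prop := ¬ (1 < a k ∧ L k = 1)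

/-- (STAR) elimination of the linear variables -/
def S_STAR : Prop := ∀ {N c : ℕ} (a : Fin N → ℕ) (d : Fin c → ℕ)
  (f : Fin c → MvPolynomial (Fin N) ℂ) (J : Fin N → Fin c) (L : Fin N → ℕ), (∀ i, 0 < a i) →
  (∀ i k, i ≠ k → Nat.Coprime (a i) (a k)) → (∀ j, 0 < d j) →
  (∀ j, IsWeightedHomogeneous a (f j) (d j)) →
  (∀ i, 1 < a i → L i * a i = d (J i) ∧ coeff (Finsupp.single i (L i)) (f (J i)) ≠ 0) →
  ∀ {A : Type} [CommRing A] [Algebra ℂ A] (z : Fin N → A), (∀ j, aeval z (f j) = 0) →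
  (∀ l, z l ∈ Submodule.span ℂ {w | ∃ m : Fin N → ℕ, (∀ k, ¬ NL a L k → m k = 0) ∧
    ∑ k, m k * a k = a l ∧ w = ∏ k, z k ^ m k}) ∧
  (∀ i, 1 < a i → L i ≠ 1 → z i ^ L i ∈ Submodule.span ℂ {w | ∃ m : Fin N → ℕ,
    (∀ k, ¬ NL a L k → m k = 0) ∧ ∑ k, m k * a k = L i * a i ∧ (∃ k, k ≠ i ∧ m k ≠ 0) ∧
    w = ∏ k, z k ^ m k})

/-- (BIN) the relation of a pair if all weights are combinations of the two weights -/
def S_BIN : Prop := ∀ {ι : Type} [DecidableEq ι] {B : Type} [CommRing B] [Algebra ℂ B]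
  (a L : ι → ℕ) (I : Finset ι) (v : ι → ℂ) (y : ι → B) (i k : ι), i ∈ I → k ∈ I → i ≠ k →
  (∀ x ∈ I, 1 < a x) → (∀ x ∈ I, ∀ x' ∈ I, x ≠ x' → Nat.Coprime (a x) (a x')) → L k = a i →
  (∀ l ∈ I, l ≠ i → l ≠ k → ∃ p r : ℕ, p * a i + r * a k = a l) →
  ((v k, y k) : ℂ × B) ^ L k ∈ Submodule.span ℂ {w : ℂ × B | ∃ m, Rel a L I k m ∧
    w = ∏ x ∈ I, ((v x, y x) : ℂ × B) ^ m x} →
  v i ≠ 0 → v k ≠ 0 → ∀ X Y : Bˣ, y i = X * algebraMap ℂ B (v i) →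
  y k = Y * algebraMap ℂ B (v k) → X ^ a k = Y ^ a i

/-- (GAP) numerical, two closed weights for different equations -/
def S_GAP : Prop := ∀ p s b e : ℕ, 2 ≤ p → p < s → 2 ≤ b → Nat.Coprime p s → Nat.Coprime p b →
  Nat.Coprime s b →
  (2 * ((p - 1) * s) + b ≤ e ∨ (s < b ∧ (p - 1) * s + (p - 1) * (b - 1) + 1 ≤ e)) →
  2 * ((p - 1) * s) + 1 ≤ e → (∀ x y w : ℕ, x * p + y * s + w * b + p * s ≠ e) →
  ∃ x y : ℕ, x * p + y * s = b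

/-- (TWO) a representation of `e` with a large coefficient -/
def S_TWO : Prop := ∀ {ι : Type} [DecidableEq ι] (a c : ι → ℕ) (I : Finset ι) (i k l : ι),
  i ∈ I → k ∈ I → l ∈ I → i ≠ k → l ≠ i → l ≠ k → (∀ x ∈ I, 1 < a x) →
  (∀ x ∈ I, ∀ x' ∈ I, x ≠ x' → Nat.Coprime (a x) (a x')) → MinExp a c I →
  (∀ x y : ℕ, x * a i + y * a k ≠ a l) → ∀ e : ℕ, (a i - 1) * (a k - 1) + a l ≤ e →
  ∃ u w : ℕ, u * a i + w * a k = e ∧ (c i ≤ u ∨ c k ≤ w)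

/-- (SINK) the values of configurations of degree `e` modulo `a i`, tight pair `i`, `k` -/
def S_SINK : Prop := ∀ {ι : Type} [DecidableEq ι] {B : Type} [CommRing B] [Algebra ℂ B]
  (a c L : ι → ℕ) (I : Finset ι) (v : ι → ℂ) (r : ι → Bˣ) (i k : ι), i ∈ I → k ∈ I → i ≠ k →
  (∀ x ∈ I, 1 < a x) → (∀ x ∈ I, ∀ x' ∈ I, x ≠ x' → Nat.Coprime (a x) (a x')) →
  MinExp a c I → (∀ x ∈ I, 2 ≤ L x) → L k = a i → (∀ U ⊆ I \ {i}, ¬ Closed a L U) →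
  (∀ l ∈ I, l ≠ i → l ≠ k → L l ≤ a k) → (∀ x ∈ I, v x ≠ 0) →
  ∀ e : ℕ, (a i - 1) * (a k - 1) + ∑ l ∈ (I.erase i).erase k, (L l - 1) * (a l - 1) + 1 ≤ e →
  (∀ l ∈ I, l ≠ i → l ≠ k → (a i - 1) * (a k - 1) + a l ≤ e) →
  (∀ m : ι → ℕ, dg a I m = e → ∏ x ∈ I, r x ^ m x = 1) →
  (∃ u w : ℕ, u * a i + w * a k = e ∧ c k ≤ w) →
  (∀ l ∈ I, l ≠ i → l ≠ k → ((v l, (r l : B) * algebraMap ℂ B (v l)) : ℂ × B) ^ L l ∈
    Submodule.span ℂ {w : ℂ × B | ∃ m, Rel a L I l m ∧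
      w = ∏ x ∈ I, ((v x, (r x : B) * algebraMap ℂ B (v x)) : ℂ × B) ^ m x}) →
  ∀ (m : ι → ℕ) (y : ℕ), dg a I m = e + y * a i → ∏ x ∈ I, r x ^ m x = r i ^ y

end Pool.Agent.K3h16.FG
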