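import Pool.Agent.K3h16.FG.Stm

/-! Numerical facts about weighted complete intersections of arbitrary codimension. -/

set_option autoImplicit false

namespace Pool.Agent.K3h16.FG

open MvPolynomial Pool.Agent.R920.WC Pool.Agent.H61.Fu

variable {N c : ℕ}

/-- a weighted complete intersection with pairwise coprime weights: for each weight `a i > 1` the
pure power `x_i ^ L i` appears in `f (J i)`; and a large degree `e` -/
structure SysH (a : Fin N → ℕ) (d : Fin c → ℕ) (e : ℕ) (f : Fin c → MvPolynomial (Fin N) ℂ)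
    (J : Fin N → Fin c) (L : Fin N → ℕ) : Prop where
  ha : ∀ i, 0 < a i
  hcop : ∀ i k, i ≠ k → Nat.Coprime (a i) (a k)
  hd : ∀ j, 0 < d j
  hf : ∀ j, IsWeightedHomogeneous a (f j) (d j)
  hJ : ∀ i, 1 < a i → L i * a i = d (J i) ∧ coeff (Finsupp.single i (L i)) (f (J i)) ≠ 0
  hE : ∑ j, (d j - 1) + 1 ≤ e + ∑ i, (a i - 1)

/-- the weights of the equation `j` -/
def TG (a : Fin N → ℕ) (J : Fin N → Fin c) (j : Fin c) : Finset (Fin N) :=
  Finset.univ.filter fun i => 1 < a i ∧ J i = j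

/-- the contribution of the equation `j` to `e` -/
def XG (a : Fin N → ℕ) (d : Fin c → ℕ) (J : Fin N → Fin c) (j : Fin c) : ℕ :=
  d j - 1 - ∑ i ∈ TG a J j, (a i - 1)

theorem mem_TG {a : Fin N → ℕ} {J : Fin N → Fin c} {j : Fin c} {i : Fin N} :
    i ∈ TG a J j ↔ 1 < a i ∧ J i = j := by simp [TG]

variable {a : Fin N → ℕ} {d : Fin c → ℕ} {e : ℕ} {f : Fin c → MvPolynomial (Fin N) ℂ}
  {J : Fin N → Fin c} {L : Fin N → ℕ}

theorem SysH.sum_split (S : SysH a d e f J L) :
    ∑ i, (a i - 1) = ∑ j, ∑ i ∈ TG a J j, (a i - 1) := by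
  have h1 : ∑ i, (a i - 1) = ∑ i ∈ Finset.univ.filter (fun i => 1 < a i), (a i - 1) := by
    rw [Finset.sum_filter]
    refine Finset.sum_congr rfl fun i _ => ?_
    by_cases h : 1 < a i
    · rw [if_pos h]
    · rw [if_neg h]
      have := S.ha i
      omega
  rw [h1, ← Finset.sum_fiberwise (s := Finset.univ.filter (fun i => 1 < a i)) (g := J)]
  refine Finset.sum_congr rfl fun j _ => ?_
  rw [Finset.filter_filter]
  rfl

theorem SysH.cT (S : SysH a d e f J L) (j : Fin c) :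
    ∀ i ∈ TG a J j, ∀ k ∈ TG a J j, i ≠ k → Nat.Coprime (a i) (a k) :=
  fun i _ k _ h => S.hcop i k h

theorem SysH.dT (S : SysH a d e f J L) (j : Fin c) : ∀ i ∈ TG a J j, a i ∣ d j := by
  intro i hi
  obtain ⟨h1, h2⟩ := mem_TG.1 hi
  rw [← h2, ← (S.hJ i h1).1]
  exact Nat.dvd_mul_left _ _

theorem SysH.le (S : SysH a d e f J L) (j : Fin c) : ∑ i ∈ TG a J j, (a i - 1) + 1 ≤ d j := by
  have h1 := sum_succ_le_prod (TG a J j) a (fun i _ => S.ha i)
  have h2 := Nat.le_of_dvd (S.hd j) (prod_dvd' (TG a J j) a (d j) (S.cT j) (S.dT j))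
  omega

/-- the budget -/
theorem SysH.budget (S : SysH a d e f J L) (K : Finset (Fin c)) : ∑ j ∈ K, XG a d J j + 1 ≤ e := by
  have h1 := S.sum_split
  have h2 := S.hE
  have h3 : ∑ j, XG a d J j + ∑ j, ∑ i ∈ TG a J j, (a i - 1) = ∑ j, (d j - 1) := by
    rw [← Finset.sum_add_distrib]
    refine Finset.sum_congr rfl fun j _ => ?_
    have := S.le j
    unfold XG
    omega
  have h4 : ∑ j ∈ K, XG a d J j ≤ ∑ j, XG a d J j :=
    Finset.sum_le_sum_of_subset (Finset.subset_univ _)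
  omega

theorem SysH.X00 (S : SysH a d e f J L) (j : Fin c) : XG a d J j + 1 ≤ e := by
  have := S.budget {j}
  rwa [Finset.sum_singleton] at this

theorem SysH.X0 (S : SysH a d e f J L) {j j' : Fin c} (h : j ≠ j') :
    XG a d J j + XG a d J j' + 1 ≤ e := by
  have := S.budget {j, j'}
  rwa [Finset.sum_pair h] at this

theorem SysH.X000 (S : SysH a d e f J L) {j j' j'' : Fin c} (h : j ≠ j') (h' : j ≠ j'')
    (h'' : j' ≠ j'') : XG a d J j + XG a d J j' + XG a d J j'' + 1 ≤ e := by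
  have := S.budget {j, j', j''}
  rw [Finset.sum_insert (by simp [h, h']), Finset.sum_pair h''] at this
  omega

theorem SysH.epos (S : SysH a d e f J L) : 1 ≤ e := by
  have := S.budget ∅
  rw [Finset.sum_empty] at this
  omega

theorem SysH.Lpos (S : SysH a d e f J L) {i : Fin N} (hi : 1 < a i) : 1 ≤ L i := by
  have h1 := (S.hJ i hi).1
  have h2 := S.hd (J i)
  by_contra hcon
  have : L i = 0 := by omega
  rw [this, zero_mul] at h1
  omega

theorem SysH.L2 (S : SysH a d e f J L) {i : Fin N} (hi : 1 < a i) (hn : NL a L i) : 2 ≤ L i := by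
  have h1 := S.Lpos hi
  by_contra hcon
  exact hn ⟨hi, by omega⟩

theorem SysH.X1 (S : SysH a d e f J L) {i : Fin N} (hi : 1 < a i) :
    (L i - 1) * (a i - 1) ≤ XG a d J (J i) := by
  classical
  have h1 := one_weight (TG a J (J i)) a (d (J i)) (S.hd _) (fun i _ => S.ha i) (S.cT _) (S.dT _)
    (mem_TG.2 ⟨hi, rfl⟩) (S.hJ i hi).1
  unfold XG
  omega

theorem SysH.X2 (S : SysH a d e f J L) {i : Fin N} (hn : NL a L i) :
    a i - 1 ≤ XG a d J (J i) := by
  by_cases hi : 1 < a i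
  · have h2 := S.X1 hi
    have h3 := S.L2 hi hn
    have h4 : 1 * (a i - 1) ≤ (L i - 1) * (a i - 1) := Nat.mul_le_mul_right _ (by omega)
    omega
  · omega

theorem SysH.X3 (S : SysH a d e f J L) {i k : Fin N} (hik : i ≠ k) (hi : 1 < a i) (hk : 1 < a k)
    (hJ : J i = J k) :
    (a i - 1) * (a k - 1) ≤ XG a d J (J i) ∧ a i * a k ∣ d (J i) ∧
    (∀ l, l ≠ i → l ≠ k → 1 < a l → J l = J i →
      a l + (a i - 1) * (a k - 1) ≤ XG a d J (J i) + 1) ∧
    (2 * (a i * a k) ≤ XG a d J (J i) + a i + a k ∨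
      (d (J i) = a i * a k ∧ ∀ l, 1 < a l → J l = J i → l = i ∨ l = k)) := by
  classical
  obtain ⟨w, hw, h1, h2, h3⟩ := two_weights (TG a J (J i)) a (d (J i)) (S.hd _)
    (fun i _ => S.ha i) (S.cT _) (S.dT _) (mem_TG.2 ⟨hi, rfl⟩) (mem_TG.2 ⟨hk, hJ.symm⟩) hik
  have h4 := S.le (J i)
  have hX : a i * a k * w + 2 ≤ XG a d J (J i) + a i + a k + w := by
    unfold XG
    rw [← h1]
    omega
  obtain ⟨p, hp⟩ : ∃ p, a i = p + 2 := ⟨a i - 2, by omega⟩
  obtain ⟨q, hq⟩ : ∃ q, a k = q + 2 := ⟨a k - 2, by omega⟩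
  have h5 : a i * a k = p * q + 2 * p + 2 * q + 4 := by rw [hp, hq]; ring
  have h6 : (a i - 1) * (a k - 1) = p * q + p + q + 1 := by
    rw [hp, hq, show p + 2 - 1 = p + 1 by omega, show q + 2 - 1 = q + 1 by omega]; ring
  obtain ⟨z, hz⟩ : ∃ z, w = z + 1 := ⟨w - 1, by omega⟩
  have h7 : a i * a k * w = (p * q + 2 * p + 2 * q + 3) * z + z + (p * q + 2 * p + 2 * q + 4) := by
    rw [hz, h5]; ring
  have h8 : p * q + 3 * z ≤ (p * q + 2 * p + 2 * q + 3) * z + p * q := by
    nlinarith [Nat.zero_le (p*q*z), Nat.zero_le (p*z), Nat.zero_le (q*z)]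
  refine ⟨?_, ?_, ?_, ?_⟩
  · rw [h6]; omega
  · rw [h1]; exact Nat.dvd_mul_right _ _
  · intro l hli hlk hl hJl
    have h9 := Nat.le_of_dvd hw (h3 l (mem_TG.2 ⟨hl, hJl⟩) hli hlk)
    rw [h6]; omega
  · rcases Nat.eq_zero_or_pos z with h9 | h9
    · right
      subst h9
      rw [hz] at h1 h3
      refine ⟨by rw [h1]; ring, ?_⟩
      intro l hl hJl
      by_contra hcon
      push Not at hcon
      have h10 := Nat.le_of_dvd (by omega) (h3 l (mem_TG.2 ⟨hl, hJl⟩) hcon.1 hcon.2)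
      omega
    · left
      have h10 : (p * q + 2 * p + 2 * q + 3) * 1 ≤ (p * q + 2 * p + 2 * q + 3) * z :=
        Nat.mul_le_mul_left _ h9
      omega

/-- a weight whose exponent is another weight is alone in its equation -/
theorem SysH.X4 (S : SysH a d e f J L) {i k : Fin N} (hk : 1 < a k)
    (hJ : J i ≠ J k) (hL : L k = a i) : (a i - 1) * a k ≤ XG a d J (J k) ∧
    ∀ l, 1 < a l → J l = J k → l = k := by
  classical
  have h1 := (S.hJ k hk).1
  have h2 : ∀ l, 1 < a l → J l = J k → l = k := by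
    intro l hl hJl
    by_contra hne
    have hli : l ≠ i := fun h => hJ (by rw [← h, hJl])
    have h3 : a l ∣ a i * a k := by
      rw [← hL, h1, ← hJl, ← (S.hJ l hl).1]
      exact Nat.dvd_mul_left _ _
    have h4 := (S.hcop l i hli).dvd_of_dvd_mul_left h3
    have := (S.hcop l k hne).eq_one_of_dvd h4
    omega
  refine ⟨?_, h2⟩
  have h3 : TG a J (J k) = {k} := by
    ext l
    rw [mem_TG, Finset.mem_singleton]
    exact ⟨fun h => h2 l h.1 h.2, fun h => by subst h; exact ⟨hk, rfl⟩⟩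
  unfold XG
  rw [h3, Finset.sum_singleton, ← h1, hL]
  have h4 := S.ha i
  obtain ⟨p, hp⟩ : ∃ p, a i = p + 1 := ⟨a i - 1, by omega⟩
  rw [hp, Nat.add_sub_cancel, add_mul, one_mul]
  omega

/-- the other coordinates, two weights of the same degree -/
theorem SysH.others (S : SysH a d e f J L) {i k : Fin N} (hik : i ≠ k) (hi : 1 < a i)
    (hk : 1 < a k) (hJ : J i = J k) (l : Fin N) (hli : l ≠ i) (hlk : l ≠ k) (hlin : NL a L l) :
    a l + (a i - 1) * (a k - 1) ≤ e := by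
  obtain ⟨h1, -, h2, -⟩ := S.X3 hik hi hk hJ
  have h00 := S.X00 (J i)
  by_cases hl : 1 < a l
  · by_cases hJl : J l = J i
    · have := h2 l hli hlk hl hJl
      omega
    · have h0 := S.X0 hJl
      have h3 := S.X2 hlin
      omega
  · omega

/-- the budget of a set of weights for different equations -/
theorem SysH.budgetC (S : SysH a d e f J L) (C : Finset (Fin N)) (h1 : ∀ i ∈ C, 1 < a i)
    (hJ : ∀ i ∈ C, ∀ k ∈ C, J i = J k → i = k) (K : Finset (Fin c))
    (hK : ∀ i ∈ C, J i ∉ K) :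
    ∑ i ∈ C, (L i - 1) * (a i - 1) + ∑ j ∈ K, XG a d J j + 1 ≤ e := by
  classical
  have h2 := S.budget (C.image J ∪ K)
  have h3 : Disjoint (C.image J) K := by
    rw [Finset.disjoint_left]
    intro j hj hjK
    obtain ⟨i, hi, rfl⟩ := Finset.mem_image.1 hj
    exact hK i hi hjK
  rw [Finset.sum_union h3, Finset.sum_image (fun i hi k hk h => hJ i hi k hk h)] at h2
  have h4 : ∑ i ∈ C, (L i - 1) * (a i - 1) ≤ ∑ i ∈ C, XG a d J (J i) :=
    Finset.sum_le_sum fun i hi => S.X1 (h1 i hi)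
  omega

end Pool.Agent.K3h16.FG
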